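import Mathlib

set_option autoImplicit false

open Set Filter Topology

namespace Pool.Agent.UZ

/-- A twice continuously differentiable function bundled with its two derivatives. -/
structure C2 where
  f : ℝ → ℝ
  f1 : ℝ → ℝ
  f2 : ℝ → ℝ
  h1 : ∀ t, HasDerivAt f (f1 t) t
  h2 : ∀ t, HasDerivAt f1 (f2 t) t
  hc : Continuous f2

/-- The sum of two `C2` functions. -/
noncomputable def C2.add (a b : C2) : C2 where
  f := fun t => a.f t + b.f t
  f1 := fun t => a.f1 t + b.f1 t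
  f2 := fun t => a.f2 t + b.f2 t
  h1 := fun t => (a.h1 t).add (b.h1 t)
  h2 := fun t => (a.h2 t).add (b.h2 t)
  hc := a.hc.add b.hc

/-- Scalar multiple. -/
noncomputable def C2.smul (c : ℝ) (b : C2) : C2 where
  f := fun t => c * b.f t
  f1 := fun t => c * b.f1 t
  f2 := fun t => c * b.f2 t
  h1 := fun t => (b.h1 t).const_mul c
  h2 := fun t => (b.h2 t).const_mul c
  hc := by
    have := b.hc
    fun_prop

/-- Rescaling `t ↦ b ((t - y) / r)`. -/
noncomputable def C2.scale (b : C2) (y r : ℝ) : C2 where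
  f := fun t => b.f ((t - y) / r)
  f1 := fun t => b.f1 ((t - y) / r) * (1 / r)
  f2 := fun t => b.f2 ((t - y) / r) * (1 / r) * (1 / r)
  h1 := fun t => by
    have h : HasDerivAt (fun t : ℝ => (t - y) / r) (1 / r) t :=
      ((hasDerivAt_id t).sub_const y).div_const r
    exact (b.h1 _).comp t h
  h2 := fun t => by
    have h : HasDerivAt (fun t : ℝ => (t - y) / r) (1 / r) t :=
      ((hasDerivAt_id t).sub_const y).div_const r
    exact ((b.h2 _).comp t h).mul_const (1 / r)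
  hc := by
    have := b.hc
    fun_prop

/-- A `C^2` function as a `C2`. -/
noncomputable def C2.ofContDiff (f : ℝ → ℝ) (hf : ContDiff ℝ 2 f) : C2 where
  f := f
  f1 := deriv f
  f2 := deriv (deriv f)
  h1 := fun t => (hf.differentiable (by simp) t).hasDerivAt
  h2 := fun t => by
    have : ContDiff ℝ 1 (deriv f) := by
      have := (contDiff_succ_iff_deriv (n := 1) (𝕜 := ℝ) (f := f)).1
        (by simpa [one_add_one_eq_two] using hf)
      exact this.2.2
    exact (this.differentiable (by simp) t).hasDerivAt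
  hc := by
    have : ContDiff ℝ 1 (deriv f) := by
      have := (contDiff_succ_iff_deriv (n := 1) (𝕜 := ℝ) (f := f)).1
        (by simpa [one_add_one_eq_two] using hf)
      exact this.2.2
    exact this.continuous_deriv (by simp)

/-- The fixed cutoff. -/
noncomputable def chi : ContDiffBump (0 : ℝ) := ⟨1/4, 1/2, by norm_num, by norm_num⟩

lemma chi_zero {t : ℝ} (ht : 1 / 2 < |t|) : ∀ᶠ s in 𝓝 t, chi s = 0 := by
  have : ∀ᶠ s in 𝓝 t, 1 / 2 < |s| := (continuous_abs.tendsto t).eventually (lt_mem_nhds ht)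
  filter_upwards [this] with s hs
  apply chi.zero_of_le_dist
  simp only [dist_zero_right, Real.norm_eq_abs]
  exact hs.le

/-- basic bumps -/
lemma bump_aux (p : ℝ → ℝ) (hp : ContDiff ℝ 2 p) : ∃ (b : C2) (M : ℝ), 0 ≤ M ∧
    b.f 0 = p 0 ∧ b.f1 0 = deriv p 0 ∧ b.f2 0 = deriv (deriv p) 0 ∧
    (∀ t, 1 ≤ |t| → b.f t = 0 ∧ b.f1 t = 0 ∧ b.f2 t = 0) ∧
    (∀ t, |b.f t| ≤ M ∧ |b.f1 t| ≤ M ∧ |b.f2 t| ≤ M) := by
  have hsm : ContDiff ℝ 2 (fun t => p t * chi t) := hp.mul chi.contDiff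
  set b := C2.ofContDiff _ hsm with hb
  have hcs : HasCompactSupport b.f := by
    have : HasCompactSupport (fun t => p t * chi t) := chi.hasCompactSupport.mul_left
    exact this
  have hcs1 : HasCompactSupport b.f1 := hcs.deriv
  have hcs2 : HasCompactSupport b.f2 := hcs1.deriv
  have c0 : Continuous b.f := continuous_iff_continuousAt.2 fun t => (b.h1 t).continuousAt
  have c1 : Continuous b.f1 := continuous_iff_continuousAt.2 fun t => (b.h2 t).continuousAt
  obtain ⟨M0, hM0⟩ := c0.bounded_above_of_compact_support hcs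
  obtain ⟨M1, hM1⟩ := c1.bounded_above_of_compact_support hcs1
  obtain ⟨M2, hM2⟩ := b.hc.bounded_above_of_compact_support hcs2
  refine ⟨b, max M0 (max M1 M2), ?_, ?_, ?_, ?_, ?_, ?_⟩
  · exact le_max_of_le_left ((norm_nonneg _).trans (hM0 0))
  · have : chi 0 = 1 := chi.eventuallyEq_one.eq_of_nhds
    change p 0 * chi 0 = p 0
    rw [this, mul_one]
  · have : (fun t => p t * chi t) =ᶠ[𝓝 0] p := by
      filter_upwards [chi.eventuallyEq_one] with t ht
      simp [ht]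
    exact this.deriv_eq
  · have : (fun t => p t * chi t) =ᶠ[𝓝 0] p := by
      filter_upwards [chi.eventuallyEq_one] with t ht
      simp [ht]
    exact this.deriv.deriv_eq
  · intro t ht
    have : (fun t => p t * chi t) =ᶠ[𝓝 t] fun _ => 0 := by
      filter_upwards [chi_zero (t := t) (by linarith)] with s hs
      simp [hs]
    refine ⟨this.eq_of_nhds, ?_, ?_⟩
    · have h := this.deriv_eq
      rw [deriv_const] at h
      exact h
    · have h := this.deriv.deriv_eq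
      simp only [deriv_const', deriv_const] at h
      exact h
  · intro t
    refine ⟨(hM0 t).trans (le_max_left _ _), (hM1 t).trans ?_, (hM2 t).trans ?_⟩
    · exact (le_max_left _ _).trans (le_max_right _ _)
    · exact (le_max_right _ _).trans (le_max_right _ _)

lemma exists_bump : ∃ M : ℝ, 0 < M ∧ ∀ a0 a1 a2 : ℝ, ∃ b : C2,
    b.f 0 = a0 ∧ b.f1 0 = a1 ∧ b.f2 0 = a2 ∧
    (∀ t, 1 ≤ |t| → b.f t = 0 ∧ b.f1 t = 0 ∧ b.f2 t = 0) ∧
    (∀ t, |b.f t| ≤ M * (|a0| + |a1| + |a2|) ∧ |b.f1 t| ≤ M * (|a0| + |a1| + |a2|) ∧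
      |b.f2 t| ≤ M * (|a0| + |a1| + |a2|)) := by
  obtain ⟨b0, M0, p0, h00, h01, h02, hz0, hM0⟩ := bump_aux (fun _ => 1) contDiff_const
  obtain ⟨b1, M1, p1, h10, h11, h12, hz1, hM1⟩ := bump_aux (fun t => t) contDiff_id
  obtain ⟨b2, M2, p2, h20, h21, h22, hz2, hM2⟩ := bump_aux (fun t => t ^ 2) (contDiff_id.pow 2)
  have d1 : deriv (fun t : ℝ => t) = fun _ => 1 := by funext t; simp
  have d2 : deriv (fun t : ℝ => t ^ 2) = fun t => 2 * t := by funext t; simp
  have d3 : deriv (fun t : ℝ => 2 * t) = fun _ => 2 := by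
    funext t
    simp
  simp only [deriv_const', deriv_const, d1, d2, d3] at h00 h01 h02 h10 h11 h12 h20 h21 h22
  refine ⟨M0 + M1 + M2 + 1, by linarith, fun a0 a1 a2 => ?_⟩
  refine ⟨((C2.smul a0 b0).add (C2.smul a1 b1)).add (C2.smul (a2 / 2) b2), ?_, ?_, ?_, ?_, ?_⟩
  · simp [C2.add, C2.smul, h00, h10, h20]
  · simp [C2.add, C2.smul, h01, h11, h21]
  · simp [C2.add, C2.smul, h02, h12, h22]
  · intro t ht
    obtain ⟨x1, x2, x3⟩ := hz0 t ht
    obtain ⟨y1, y2, y3⟩ := hz1 t ht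
    obtain ⟨z1, z2, z3⟩ := hz2 t ht
    simp [C2.add, C2.smul, *]
  · have key : ∀ u0 u1 u2 : ℝ, |u0| ≤ M0 → |u1| ≤ M1 → |u2| ≤ M2 →
        |a0 * u0 + a1 * u1 + a2 / 2 * u2| ≤ (M0 + M1 + M2 + 1) * (|a0| + |a1| + |a2|) := by
      intro u0 u1 u2 hu0 hu1 hu2
      have e1 : |a0 * u0 + a1 * u1 + a2 / 2 * u2| ≤ |a0| * |u0| + |a1| * |u1| + |a2| / 2 * |u2| := by
        refine (abs_add_le _ _).trans (add_le_add ((abs_add_le _ _).trans (add_le_add ?_ ?_)) ?_)
        · rw [abs_mul]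
        · rw [abs_mul]
        · rw [abs_mul, abs_div, abs_two]
      have q0 := abs_nonneg a0
      have q1 := abs_nonneg a1
      have q2 := abs_nonneg a2
      have f0 : |a0| * |u0| ≤ |a0| * M0 := mul_le_mul_of_nonneg_left hu0 q0
      have f1 : |a1| * |u1| ≤ |a1| * M1 := mul_le_mul_of_nonneg_left hu1 q1
      have f2 : |a2| / 2 * |u2| ≤ |a2| / 2 * M2 := mul_le_mul_of_nonneg_left hu2 (by positivity)
      nlinarith [mul_nonneg q0 p1, mul_nonneg q0 p2, mul_nonneg q1 p0, mul_nonneg q1 p2,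
        mul_nonneg q2 p0, mul_nonneg q2 p1, mul_nonneg q2 p2]
    intro t
    obtain ⟨x1, x2, x3⟩ := hM0 t
    obtain ⟨y1, y2, y3⟩ := hM1 t
    obtain ⟨z1, z2, z3⟩ := hM2 t
    exact ⟨key _ _ _ x1 y1 z1, key _ _ _ x2 y2 z2, key _ _ _ x3 y3 z3⟩

/-- Second order Taylor expansion at a point where the derivative is differentiable. -/
lemma taylor_two (g g1 : ℝ → ℝ) (x a : ℝ) (hg : ∀ᶠ t in 𝓝 x, HasDerivAt g (g1 t) t)
    (ha : HasDerivAt g1 a x) {δ : ℝ} (hδ : 0 < δ) :
    ∀ᶠ y in 𝓝 x, |g y - g x - g1 x * (y - x) - a * (y - x) ^ 2 / 2| ≤ δ * (y - x) ^ 2 ∧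
      |g1 y - g1 x - a * (y - x)| ≤ δ * |y - x| := by
  have h1 : ∀ᶠ y in 𝓝 x, |g1 y - g1 x - a * (y - x)| ≤ δ * |y - x| := by
    have := (hasDerivAt_iff_isLittleO.1 ha).bound hδ
    filter_upwards [this] with y hy
    simp only [Real.norm_eq_abs, smul_eq_mul] at hy
    rwa [mul_comm a]
  obtain ⟨η, hη, hball⟩ := Metric.eventually_nhds_iff_ball.1 (hg.and h1)
  filter_upwards [Metric.ball_mem_nhds x hη] with y hy
  refine ⟨?_, (hball y hy).2⟩
  set φ : ℝ → ℝ := fun t => g t - g x - g1 x * (t - x) - a * (t - x) ^ 2 / 2 with hφ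
  have hd : ∀ t ∈ Metric.ball x η, HasDerivAt φ (g1 t - g1 x - a * (t - x)) t := by
    intro t ht
    have e1 := (hball t ht).1
    have e2 : HasDerivAt (fun t : ℝ => t - x) 1 t := (hasDerivAt_id t).sub_const x
    have e3 := ((e1.sub_const (g x)).sub (e2.const_mul (g1 x))).sub
      (((e2.pow 2).const_mul a).div_const 2)
    refine e3.congr_deriv ?_
    simp
    ring
  have hseg : segment ℝ x y ⊆ Metric.ball x η :=
    (convex_ball x η).segment_subset (Metric.mem_ball_self hη) hy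
  have hb : ∀ t ∈ segment ℝ x y, ‖g1 t - g1 x - a * (t - x)‖ ≤ δ * |y - x| := by
    intro t ht
    refine ((hball t (hseg ht)).2).trans ?_
    have : |t - x| ≤ |y - x| := by
      rw [segment_eq_uIcc] at ht
      exact Set.abs_sub_left_of_mem_uIcc ht
    exact mul_le_mul_of_nonneg_left this hδ.le
  have := (convex_segment x y).norm_image_sub_le_of_norm_hasDerivWithin_le
    (f := φ) (f' := fun t => g1 t - g1 x - a * (t - x)) (C := δ * |y - x|)
    (fun t ht => (hd t (hseg ht)).hasDerivWithinAt) hb (left_mem_segment ℝ x y)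
    (right_mem_segment ℝ x y)
  have hφx : φ x = 0 := by simp [hφ]
  rw [hφx, sub_zero] at this
  simp only [Real.norm_eq_abs] at this
  calc |φ y| ≤ δ * |y - x| * |y - x| := this
    _ = δ * (y - x) ^ 2 := by rw [mul_assoc, abs_mul_abs_self]; ring

/-- `y` is a second order contact partner of `x` up to `ε`. -/
def Contact (g g1 A : ℝ → ℝ) (ε x y : ℝ) : Prop :=
  y ≠ x ∧ |y - x| < ε ∧ |g y - g x - g1 x * (y - x) - A x * (y - x) ^ 2 / 2| ≤ ε * (y - x) ^ 2 ∧
    |g1 y - g1 x - A x * (y - x)| ≤ ε * |y - x| ∧ |A y - A x| ≤ ε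

lemma step (D : Set ℝ) (g g1 A : ℝ → ℝ)
    (hD : ∀ x ∈ D, ∀ ε > 0, ∃ y ∈ D, Contact g g1 A ε x y) (F : C2) (P : Finset ℝ)
    (x : ℝ) (hx : x ∈ D) (e0 : F.f x = g x) (e1 : F.f1 x = g1 x) (e2 : F.f2 x = A x)
    (ε : ℝ) (hε : 0 < ε) :
    ∃ (y : ℝ) (F' : C2), y ∈ D ∧ y ≠ x ∧ |y - x| < ε ∧
      (F'.f y = g y ∧ F'.f1 y = g1 y ∧ F'.f2 y = A y) ∧
      (∀ z ∈ P, F'.f z = F.f z ∧ F'.f1 z = F.f1 z ∧ F'.f2 z = F.f2 z) ∧
      ∀ t, |F'.f t - F.f t| ≤ ε ∧ |F'.f1 t - F.f1 t| ≤ ε ∧ |F'.f2 t - F.f2 t| ≤ ε := by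
  obtain ⟨M, hM, hbump⟩ := exists_bump
  set δ : ℝ := min (ε / (6 * M)) (min ε 1) with hδdef
  have hδ : 0 < δ := by positivity
  have hδ1 : δ ≤ ε / (6 * M) := min_le_left _ _
  have hδ2 : δ ≤ ε := (min_le_right _ _).trans (min_le_left _ _)
  have hδ3 : δ ≤ 1 := (min_le_right _ _).trans (min_le_right _ _)
  -- neighbourhood conditions
  have hT := taylor_two F.f F.f1 x (F.f2 x) (Eventually.of_forall F.h1) (F.h2 x) hδ
  have hC : ∀ᶠ y in 𝓝 x, |F.f2 y - F.f2 x| ≤ δ := by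
    have : Tendsto (fun y => |F.f2 y - F.f2 x|) (𝓝 x) (𝓝 |F.f2 x - F.f2 x|) := by
      have hc := F.hc
      exact Continuous.tendsto (by fun_prop) x
    rw [sub_self, abs_zero] at this
    exact this.eventually (ge_mem_nhds hδ)
  have hP : ∀ᶠ y in 𝓝 x, ∀ z ∈ P, z ≠ x → |y - x| ≤ |z - y| := by
    rw [Filter.eventually_all_finset]
    intro z _
    by_cases hz : z = x
    · exact Eventually.of_forall fun y h => absurd hz h
    · have h1 : Tendsto (fun y => |y - x|) (𝓝 x) (𝓝 |x - x|) :=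
        Continuous.tendsto (by fun_prop) x
      have h2 : Tendsto (fun y => |z - y|) (𝓝 x) (𝓝 |z - x|) :=
        Continuous.tendsto (by fun_prop) x
      rw [sub_self, abs_zero] at h1
      have h3 : 0 < |z - x| := abs_pos.2 (sub_ne_zero.2 hz)
      have := h1.eventually_lt h2 h3
      filter_upwards [this] with y hy _ using hy.le
  obtain ⟨η, hη, hball⟩ := Metric.eventually_nhds_iff_ball.1 (hT.and (hC.and hP))
  obtain ⟨y, hyD, hyx, hyd, hy0, hy1, hy2⟩ := hD x hx (min δ η) (by positivity)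
  have hyb : y ∈ Metric.ball x η := by
    rw [Metric.mem_ball, Real.dist_eq]
    exact hyd.trans_le (min_le_right _ _)
  obtain ⟨⟨t0, t1⟩, t2, t3⟩ := hball y hyb
  have hm : min δ η ≤ δ := min_le_left _ _
  set r : ℝ := |y - x| with hr
  have hrpos : 0 < r := abs_pos.2 (sub_ne_zero.2 hyx)
  have hrδ : r < δ := hyd.trans_le hm
  have hr1 : r ≤ 1 := hrδ.le.trans hδ3
  have hsq : (y - x) ^ 2 = r ^ 2 := by rw [hr, sq_abs]
  -- the errors
  set u0 := g y - F.f y with hu0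
  set u1 := g1 y - F.f1 y with hu1
  set u2 := A y - F.f2 y with hu2
  have b0 : |u0| ≤ 2 * δ * r ^ 2 := by
    have a1 : |g y - g x - g1 x * (y - x) - A x * (y - x) ^ 2 / 2| ≤ δ * r ^ 2 := by
      rw [← hsq]
      exact hy0.trans (mul_le_mul_of_nonneg_right hm (sq_nonneg _))
    rw [e0, e1, e2, hsq] at t0
    rw [hsq] at a1
    have : u0 = (g y - g x - g1 x * (y - x) - A x * r ^ 2 / 2) -
      (F.f y - g x - g1 x * (y - x) - A x * r ^ 2 / 2) := by rw [hu0]; ring
    rw [this]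
    refine (abs_sub _ _).trans ?_
    linarith
  have b1 : |u1| ≤ 2 * δ * r := by
    have a1 : |g1 y - g1 x - A x * (y - x)| ≤ δ * r :=
      hy1.trans (mul_le_mul_of_nonneg_right hm (abs_nonneg _))
    rw [e1, e2] at t1
    have : u1 = (g1 y - g1 x - A x * (y - x)) - (F.f1 y - g1 x - A x * (y - x)) := by
      rw [hu1]; ring
    rw [this]
    refine (abs_sub _ _).trans ?_
    linarith
  have b2 : |u2| ≤ 2 * δ := by
    have : u2 = (A y - A x) - (F.f2 y - A x) := by rw [hu2]; ring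
    rw [this]
    rw [e2] at t2
    refine (abs_sub _ _).trans ?_
    linarith
  obtain ⟨b, hb0, hb1, hb2, hbz, hbb⟩ := hbump u0 (r * u1) (r ^ 2 * u2)
  have hsum : M * (|u0| + |r * u1| + |r ^ 2 * u2|) ≤ ε * r ^ 2 := by
    rw [abs_mul, abs_mul, abs_of_pos hrpos, abs_of_pos (by positivity : 0 < r ^ 2)]
    have c1 : r * |u1| ≤ 2 * δ * r ^ 2 := by
      calc r * |u1| ≤ r * (2 * δ * r) := mul_le_mul_of_nonneg_left b1 hrpos.le
        _ = 2 * δ * r ^ 2 := by ring
    have c2 : r ^ 2 * |u2| ≤ 2 * δ * r ^ 2 := by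
      calc r ^ 2 * |u2| ≤ r ^ 2 * (2 * δ) := mul_le_mul_of_nonneg_left b2 (sq_nonneg r)
        _ = 2 * δ * r ^ 2 := by ring
    have c3 : M * (|u0| + r * |u1| + r ^ 2 * |u2|) ≤ M * (6 * δ * r ^ 2) :=
      mul_le_mul_of_nonneg_left (by linarith) hM.le
    have c4 : 6 * M * δ ≤ ε := by
      have := (le_div_iff₀ (by positivity : 0 < 6 * M)).1 hδ1
      linarith
    calc M * (|u0| + r * |u1| + r ^ 2 * |u2|) ≤ M * (6 * δ * r ^ 2) := c3
      _ = (6 * M * δ) * r ^ 2 := by ring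
      _ ≤ ε * r ^ 2 := mul_le_mul_of_nonneg_right c4 (sq_nonneg r)
  have hr2 : r ^ 2 ≤ r := by nlinarith
  set h := b.scale y r with hh
  have hy' : (y - y) / r = 0 := by simp
  have hxy : ∀ z ∈ insert x P, 1 ≤ |(z - y) / r| := by
    intro z hz
    rw [abs_div, abs_of_pos hrpos, le_div_iff₀ hrpos, one_mul]
    by_cases hzx : z = x
    · rw [hzx, hr, abs_sub_comm]
    · rcases Finset.mem_insert.1 hz with h | h
      · exact absurd h hzx
      · exact t3 z h hzx
  refine ⟨y, F.add h, hyD, hyx, hrδ.trans_le hδ2, ⟨?_, ?_, ?_⟩, ?_, ?_⟩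
  · change F.f y + b.f ((y - y) / r) = g y
    rw [hy', hb0, hu0]; ring
  · change F.f1 y + b.f1 ((y - y) / r) * (1 / r) = g1 y
    rw [hy', hb1, hu1]; field_simp; ring
  · change F.f2 y + b.f2 ((y - y) / r) * (1 / r) * (1 / r) = A y
    rw [hy', hb2, hu2]; field_simp; ring
  · intro z hz
    obtain ⟨z0, z1, z2⟩ := hbz _ (hxy z (Finset.mem_insert_of_mem hz))
    refine ⟨?_, ?_, ?_⟩
    · change F.f z + b.f ((z - y) / r) = F.f z
      rw [z0, add_zero]
    · change F.f1 z + b.f1 ((z - y) / r) * (1 / r) = F.f1 z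
      rw [z1]; ring
    · change F.f2 z + b.f2 ((z - y) / r) * (1 / r) * (1 / r) = F.f2 z
      rw [z2]; ring
  · intro t
    obtain ⟨z0, z1, z2⟩ := hbb ((t - y) / r)
    have hinv : |1 / r| = 1 / r := abs_of_pos (by positivity)
    refine ⟨?_, ?_, ?_⟩
    · change |F.f t + b.f ((t - y) / r) - F.f t| ≤ ε
      rw [add_sub_cancel_left]
      refine z0.trans (hsum.trans ?_)
      calc ε * r ^ 2 ≤ ε * 1 := mul_le_mul_of_nonneg_left (hr2.trans hr1) hε.le
        _ = ε := mul_one ε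
    · change |F.f1 t + b.f1 ((t - y) / r) * (1 / r) - F.f1 t| ≤ ε
      rw [add_sub_cancel_left, abs_mul, hinv, mul_one_div, div_le_iff₀ hrpos]
      refine z1.trans (hsum.trans ?_)
      exact mul_le_mul_of_nonneg_left hr2 hε.le
    · change |F.f2 t + b.f2 ((t - y) / r) * (1 / r) * (1 / r) - F.f2 t| ≤ ε
      rw [add_sub_cancel_left, abs_mul, abs_mul, hinv, mul_one_div, mul_one_div,
        div_le_iff₀ hrpos, div_le_iff₀ hrpos]
      refine z2.trans (hsum.trans ?_)
      rw [mul_assoc, ← sq]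

lemma not_countable_natBool : ¬ Countable (ℕ → Bool) := by
  have h2 : Cardinal.mk (ℕ → Bool) = 2 ^ Cardinal.aleph0 := by
    rw [Cardinal.mk_arrow]
    simp
  intro hc
  have h1 : Cardinal.mk (ℕ → Bool) ≤ Cardinal.aleph0 := Cardinal.mk_le_aleph0_iff.2 hc
  rw [h2] at h1
  exact absurd h1 (not_le.2 (Cardinal.cantor _))

/-- The fusion theorem: a set in which every point has arbitrarily good second order contact
partners yields a twice differentiable function agreeing with `g` on an uncountable set. -/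
theorem fusion (D : Set ℝ) (g g1 A : ℝ → ℝ) (hg : Continuous g)
    (hne : D.Nonempty)
    (hD : ∀ x ∈ D, ∀ ε > 0, ∃ y ∈ D, Contact g g1 A ε x y) :
    ∃ F : C2, ¬ Set.Countable {x : ℝ | F.f x = g x} := by
  classical
  obtain ⟨x0, hx0⟩ := hne
  -- invariant
  let Inv : ℕ → C2 × (ℕ → ℝ) → Prop := fun n s => ∀ i ≤ n, s.2 i ∈ D ∧ s.1.f (s.2 i) = g (s.2 i) ∧
    s.1.f1 (s.2 i) = g1 (s.2 i) ∧ s.1.f2 (s.2 i) = A (s.2 i)
  let Rel : ℕ → C2 × (ℕ → ℝ) → C2 × (ℕ → ℝ) → Prop := fun n s s' =>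
    (∀ i ≤ n, s'.2 i = s.2 i) ∧ s'.2 (n + 1) ≠ s.2 (Nat.unpair n).1 ∧
      |s'.2 (n + 1) - s.2 (Nat.unpair n).1| < (1 / 2 : ℝ) ^ n ∧
      ∀ t, |s'.1.f t - s.1.f t| ≤ (1 / 2 : ℝ) ^ n ∧ |s'.1.f1 t - s.1.f1 t| ≤ (1 / 2 : ℝ) ^ n ∧
        |s'.1.f2 t - s.1.f2 t| ≤ (1 / 2 : ℝ) ^ n
  have hstep : ∀ n s, Inv n s → ∃ s', Inv (n + 1) s' ∧ Rel n s s' := by
    intro n s hs
    have hk : (Nat.unpair n).1 ≤ n := Nat.unpair_left_le n
    obtain ⟨hx, e0, e1, e2⟩ := hs _ hk
    obtain ⟨y, F', hy, hyx, hyd, ⟨y0, y1, y2⟩, hz, hb⟩ := step D g g1 A hD s.1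
      ((Finset.range (n + 1)).image s.2) (s.2 (Nat.unpair n).1) hx e0 e1 e2 ((1 / 2 : ℝ) ^ n)
      (by positivity)
    refine ⟨(F', fun i => if i ≤ n then s.2 i else y), ?_, ?_, ?_, ?_, hb⟩
    · intro i hi
      by_cases hin : i ≤ n
      · obtain ⟨i0, i1, i2, i3⟩ := hs i hin
        obtain ⟨z0, z1, z2⟩ := hz (s.2 i) (Finset.mem_image_of_mem _ (by simp; omega))
        simp only [hin, if_true]
        exact ⟨i0, z0.trans i1, z1.trans i2, z2.trans i3⟩
      · simp only [hin, if_false]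
        exact ⟨hy, y0, y1, y2⟩
    · intro i hi
      simp [hi]
    · simp only [show ¬ (n + 1 ≤ n) by omega, if_false]
      exact hyx
    · simp only [show ¬ (n + 1 ≤ n) by omega, if_false]
      exact hyd
  choose! next hnext using hstep
  -- start
  have hquad : ContDiff ℝ 2 (fun t : ℝ => g x0 + g1 x0 * (t - x0) + A x0 / 2 * (t - x0) ^ 2) := by
    fun_prop
  let F0 : C2 :=
    { f := fun t => g x0 + g1 x0 * (t - x0) + A x0 * (t - x0) ^ 2 / 2
      f1 := fun t => g1 x0 + A x0 * (t - x0)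
      f2 := fun _ => A x0
      h1 := fun t => by
        have e2 : HasDerivAt (fun t : ℝ => t - x0) 1 t := (hasDerivAt_id t).sub_const x0
        have := ((e2.const_mul (g1 x0)).const_add (g x0)).add
          (((e2.pow 2).const_mul (A x0)).div_const 2)
        refine this.congr_deriv ?_
        simp
        ring
      h2 := fun t => by
        have e2 : HasDerivAt (fun t : ℝ => t - x0) 1 t := (hasDerivAt_id t).sub_const x0
        have := (e2.const_mul (A x0)).const_add (g1 x0)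
        refine this.congr_deriv ?_
        simp
      hc := continuous_const }
  let s0 : C2 × (ℕ → ℝ) := (F0, fun _ => x0)
  have hs0 : Inv 0 s0 := by
    intro i _
    refine ⟨hx0, ?_, ?_, ?_⟩ <;> simp [s0, F0]
  let S : ℕ → C2 × (ℕ → ℝ) := fun n => Nat.rec s0 (fun n s => next n s) n
  have hS : ∀ n, Inv n (S n) := by
    intro n
    induction n with
    | zero => exact hs0
    | succ n ih => exact (hnext n (S n) ih).1
  have hR : ∀ n, Rel n (S n) (S (n + 1)) := fun n => (hnext n (S n) (hS n)).2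
  -- the points
  let x : ℕ → ℝ := fun n => (S n).2 n
  have hx : ∀ i n, i ≤ n → (S n).2 i = x i := by
    intro i n hin
    induction n, hin using Nat.le_induction with
    | base => rfl
    | succ n hn ih => rw [(hR n).1 i hn, ih]
  -- the limit function
  let u : ℕ → ℝ → ℝ := fun n t => (S (n + 1)).1.f t - (S n).1.f t
  let u1 : ℕ → ℝ → ℝ := fun n t => (S (n + 1)).1.f1 t - (S n).1.f1 t
  let u2 : ℕ → ℝ → ℝ := fun n t => (S (n + 1)).1.f2 t - (S n).1.f2 t
  have hsum : Summable (fun n : ℕ => (1 / 2 : ℝ) ^ n) := summable_geometric_two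
  have hu : ∀ n t, ‖u n t‖ ≤ (1 / 2 : ℝ) ^ n := fun n t => ((hR n).2.2.2 t).1
  have hu1 : ∀ n t, ‖u1 n t‖ ≤ (1 / 2 : ℝ) ^ n := fun n t => ((hR n).2.2.2 t).2.1
  have hu2 : ∀ n t, ‖u2 n t‖ ≤ (1 / 2 : ℝ) ^ n := fun n t => ((hR n).2.2.2 t).2.2
  have hd1 : ∀ n t, HasDerivAt (u n) (u1 n t) t := fun n t =>
    ((S (n + 1)).1.h1 t).sub ((S n).1.h1 t)
  have hd2 : ∀ n t, HasDerivAt (u1 n) (u2 n t) t := fun n t =>
    ((S (n + 1)).1.h2 t).sub ((S n).1.h2 t)
  have hS0 : ∀ t, Summable (fun n => u n t) := fun t =>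
    Summable.of_norm_bounded hsum (fun n => hu n t)
  have hS1 : ∀ t, Summable (fun n => u1 n t) := fun t =>
    Summable.of_norm_bounded hsum (fun n => hu1 n t)
  let F : C2 :=
    { f := fun t => F0.f t + ∑' n, u n t
      f1 := fun t => F0.f1 t + ∑' n, u1 n t
      f2 := fun t => F0.f2 t + ∑' n, u2 n t
      h1 := fun t => (F0.h1 t).add (hasDerivAt_tsum hsum hd1 hu1 (hS0 0) t)
      h2 := fun t => (F0.h2 t).add (hasDerivAt_tsum hsum hd2 hu2 (hS1 0) t)
      hc := F0.hc.add (continuous_tsum (fun n => (S (n + 1)).1.hc.sub (S n).1.hc) hsum hu2) }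
  have hlim : ∀ t, Tendsto (fun n => (S n).1.f t) atTop (𝓝 (F.f t)) := by
    intro t
    have h1 := ((hS0 t).hasSum.tendsto_sum_nat).const_add (F0.f t)
    refine h1.congr fun n => ?_
    have : ∑ i ∈ Finset.range n, u i t = (S n).1.f t - (S 0).1.f t :=
      Finset.sum_range_sub (fun n => (S n).1.f t) n
    rw [this]
    change F0.f t + ((S n).1.f t - F0.f t) = _
    ring
  have hFx : ∀ i, F.f (x i) = g (x i) := by
    intro i
    refine tendsto_nhds_unique (hlim (x i)) ?_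
    refine tendsto_const_nhds.congr' ?_
    filter_upwards [eventually_ge_atTop i] with n hn
    have := (hS n i hn).2.1
    rw [hx i n hn] at this
    exact this.symm
  -- the closed set
  have hcF : Continuous F.f := continuous_iff_continuousAt.2 fun t => (F.h1 t).continuousAt
  have hclosed : IsClosed {t : ℝ | F.f t = g t} := isClosed_eq hcF hg
  have hsub : closure (range x) ⊆ {t : ℝ | F.f t = g t} :=
    hclosed.closure_subset_iff.2 (by rintro _ ⟨i, rfl⟩; exact hFx i)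
  have hpre : Preperfect (range x) := by
    rintro _ ⟨i, rfl⟩
    rw [accPt_iff_nhds]
    intro U hU
    obtain ⟨ε, hε, hball⟩ := Metric.mem_nhds_iff.1 hU
    obtain ⟨N, hN⟩ := exists_pow_lt_of_lt_one hε (by norm_num : (1 / 2 : ℝ) < 1)
    set n := Nat.pair i N with hn
    have hNn : N ≤ n := Nat.right_le_pair i N
    have hin : i ≤ n := Nat.left_le_pair i N
    have hun : (Nat.unpair n).1 = i := by rw [hn, Nat.unpair_pair]
    obtain ⟨-, hne, hlt, -⟩ := hR n
    rw [hun, hx i n hin] at hne hlt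
    refine ⟨x (n + 1), ⟨hball ?_, ⟨n + 1, rfl⟩⟩, hne⟩
    rw [Metric.mem_ball, Real.dist_eq]
    refine hlt.trans_le (le_trans ?_ hN.le)
    exact pow_le_pow_of_le_one (by norm_num) (by norm_num) hNn
  have hperf : Perfect (closure (range x)) := hpre.perfect_closure
  obtain ⟨φ, hφr, -, hφi⟩ := hperf.exists_nat_bool_injection ⟨x 0, subset_closure ⟨0, rfl⟩⟩
  refine ⟨F, fun hcount => ?_⟩
  have hcr : (range φ).Countable := hcount.mono (hφr.trans hsub)
  have hc : Countable (ℕ → Bool) := by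
    have : Countable (range φ) := hcr.to_subtype
    exact (Set.rangeFactorization_injective.2 hφi).countable
  exact not_countable_natBool hc

end Pool.Agent.UZ
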