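import Mathlib
import Pool.Agent.UZ.Fusion

set_option autoImplicit false

open Set Filter Topology MeasureTheory

namespace Pool.Agent.UZ

/-- A set with contact partners. -/
def HasD (g g1 : ℝ → ℝ) : Prop := ∃ (A : ℝ → ℝ) (D : Set ℝ), D.Nonempty ∧
  ∀ x ∈ D, ∀ ε > 0, ∃ y ∈ D, Contact g g1 A ε x y

lemma partners_of_many (g g1 : ℝ → ℝ) (E : Set ℝ) (A : ℝ → ℝ) (hE : ¬ E.Countable)
    (h : ∀ x ∈ E, (∀ᶠ t in 𝓝 x, HasDerivAt g (g1 t) t) ∧ HasDerivAt g1 (A x) x) :
    HasD g g1 := by
  classical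
  set N : Set ℝ := {x ∈ E | ∃ ε > 0, {y ∈ E | |y - x| < ε ∧ |A y - A x| < ε}.Countable} with hN
  have hNc : N.Countable := by
    have hch : ∀ x : ℝ, ∃ ε : ℝ, x ∈ N → 0 < ε ∧ {y ∈ E | |y - x| < ε ∧ |A y - A x| < ε}.Countable := by
      intro x
      by_cases hx : x ∈ N
      · obtain ⟨-, ε, hε, hc⟩ := hx
        exact ⟨ε, fun _ => ⟨hε, hc⟩⟩
      · exact ⟨0, fun h => absurd h hx⟩
    choose ε hε using hch
    let ι : ℝ → ℝ × ℝ := fun x => (x, A x)
    obtain ⟨t, hts, htc, hcov⟩ := TopologicalSpace.countable_cover_nhdsWithin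
      (f := fun p : ℝ × ℝ => Metric.ball p.1 (ε p.1) ×ˢ Metric.ball p.2 (ε p.1)) (s := ι '' N)
      (by
        rintro _ ⟨x, hx, rfl⟩
        apply mem_nhdsWithin_of_mem_nhds
        exact prod_mem_nhds (Metric.ball_mem_nhds _ (hε x hx).1) (Metric.ball_mem_nhds _ (hε x hx).1))
    have hsub : N ⊆ ⋃ p ∈ t, {y ∈ E | |y - p.1| < ε p.1 ∧ |A y - p.2| < ε p.1} := by
      intro x hx
      have := hcov ⟨x, hx, rfl⟩
      simp only [mem_iUnion, exists_prop] at this ⊢
      obtain ⟨p, hp, hb⟩ := this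
      refine ⟨p, hp, hx.1, ?_, ?_⟩
      · have := hb.1
        rwa [Metric.mem_ball, Real.dist_eq] at this
      · have := hb.2
        rwa [Metric.mem_ball, Real.dist_eq] at this
    refine Set.Countable.mono hsub (htc.biUnion fun p hp => ?_)
    obtain ⟨x, hx, rfl⟩ := hts hp
    exact (hε x hx).2
  refine ⟨A, E \ N, ?_, ?_⟩
  · by_contra hcon
    rw [not_nonempty_iff_eq_empty, Set.sdiff_eq_empty] at hcon
    exact hE (hNc.mono hcon)
  · rintro x ⟨hxE, hxN⟩ δ hδ
    obtain ⟨h1, h2⟩ := h x hxE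
    obtain ⟨η, hη, hball⟩ := Metric.eventually_nhds_iff_ball.1 (taylor_two g g1 x (A x) h1 h2 hδ)
    have hnc : ¬ {y ∈ E | |y - x| < min η δ ∧ |A y - A x| < min η δ}.Countable := by
      intro hc
      exact hxN ⟨hxE, min η δ, by positivity, hc⟩
    have : ∃ y ∈ {y ∈ E | |y - x| < min η δ ∧ |A y - A x| < min η δ}, y ∉ insert x N := by
      by_contra hcon
      push Not at hcon
      exact hnc ((hNc.insert x).mono hcon)
    obtain ⟨y, ⟨hyE, hy1, hy2⟩, hyn⟩ := this
    rw [mem_insert_iff, not_or] at hyn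
    have hyb : y ∈ Metric.ball x η := by
      rw [Metric.mem_ball, Real.dist_eq]
      exact hy1.trans_le (min_le_left _ _)
    refine ⟨y, ⟨hyE, hyn.2⟩, hyn.1, hy1.trans_le (min_le_right _ _), (hball y hyb).1,
      (hball y hyb).2, (hy2.trans_le (min_le_right _ _)).le⟩

lemma hasD_of_monotoneOn (g g1 : ℝ → ℝ) (hg : ∀ t, HasDerivAt g (g1 t) t) (a b : ℝ) (hab : a < b)
    (hm : MonotoneOn g1 (Ioo a b)) : HasD g g1 := by
  set E : Set ℝ := {x ∈ Ioo a b | DifferentiableAt ℝ g1 x} with hE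
  have hnull : volume (Ioo a b \ E) = 0 := by
    have h1 := hm.ae_differentiableWithinAt measurableSet_Ioo
    rw [ae_restrict_iff' measurableSet_Ioo] at h1
    refine measure_mono_null ?_ h1
    intro x hx hcon
    apply hx.2
    exact ⟨hx.1, (hcon hx.1).differentiableAt (Ioo_mem_nhds hx.1.1 hx.1.2)⟩
  have hEc : ¬ E.Countable := by
    intro hc
    have h0 : volume E = 0 := hc.measure_zero volume
    have h1 : volume (Ioo a b) ≤ volume E + volume (Ioo a b \ E) :=
      (measure_mono (by intro x hx; by_cases h : x ∈ E; exacts [Or.inl h, Or.inr ⟨hx, h⟩])).trans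
        (measure_union_le _ _)
    rw [h0, hnull, Real.volume_Ioo] at h1
    simp at h1
    linarith
  exact partners_of_many g g1 E (deriv g1) hEc
    fun x hx => ⟨Eventually.of_forall hg, hx.2.hasDerivAt⟩

/-- The lower tangent case: `g` dips strictly below one of its chords. -/
lemma hasD_of_dip (g g1 : ℝ → ℝ) (hg : ∀ t, HasDerivAt g (g1 t) t) (a b c : ℝ) (hac : a < c)
    (hcb : c < b) (hdip : g c < g a + (g b - g a) / (b - a) * (c - a)) : HasD g g1 := by
  have hab : a < b := hac.trans hcb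
  have hcont : Continuous g := continuous_iff_continuousAt.2 fun t => (hg t).continuousAt
  -- minimiser function
  have hex : ∀ s : ℝ, ∃ x ∈ Icc a b, ∀ t ∈ Icc a b, g x - s * x ≤ g t - s * t := by
    intro s
    obtain ⟨x, hx, hmin⟩ := isCompact_Icc.exists_isMinOn (nonempty_Icc.2 hab.le)
      (f := fun t => g t - s * t) (by fun_prop)
    exact ⟨x, hx, fun t ht => hmin ht⟩
  choose ξ hξm hξ using hex
  have hmono : Monotone ξ := by
    intro s s' hss
    rcases hss.eq_or_lt with rfl | hlt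
    · exact le_rfl
    · have h1 := hξ s _ (hξm s')
      have h2 := hξ s' _ (hξm s)
      by_contra hcon
      push Not at hcon
      nlinarith
  -- the slope window
  set m := (g b - g a) / (b - a) with hm
  have hba : 0 < b - a := by linarith
  have hmb : g a + m * (b - a) = g b := by rw [hm]; field_simp; ring
  set μ := g a + m * (c - a) - g c with hμ
  have hμpos : 0 < μ := by rw [hμ]; linarith
  set η := μ / (2 * (b - a)) with hη
  have hηpos : 0 < η := by positivity
  have hηba : η * (b - a) = μ / 2 := by rw [hη]; field_simp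
  have hint : ∀ s, |s - m| < η → ξ s ∈ Ioo a b := by
    intro s hs
    have h1 := hξ s c ⟨hac.le, hcb.le⟩
    obtain ⟨hs1, hs2⟩ := abs_lt.1 hs
    have hgc : g c = g a + m * (c - a) - μ := by rw [hμ]; ring
    have k1 : (m - s) * (c - a) ≤ η * (b - a) := by
      nlinarith
    have k2 : (m - s) * (b - a) ≥ - (η * (b - a)) := by nlinarith
    have hne_a : ξ s ≠ a := by
      intro h
      rw [h, hgc] at h1
      nlinarith
    have hne_b : ξ s ≠ b := by
      intro h
      rw [h, hgc, ← hmb] at h1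
      have k3 : (m - s) * (b - c) > - (η * (b - a)) := by nlinarith
      nlinarith
    exact ⟨lt_of_le_of_ne (hξm s).1 (Ne.symm hne_a), lt_of_le_of_ne (hξm s).2 hne_b⟩
  have hder : ∀ s, |s - m| < η → g1 (ξ s) = s := by
    intro s hs
    have hmem := hint s hs
    have hloc : IsLocalMin (fun t => g t - s * t) (ξ s) := by
      filter_upwards [Icc_mem_nhds hmem.1 hmem.2] with t ht
      exact hξ s t ht
    have hd : HasDerivAt (fun t => g t - s * t) (g1 (ξ s) - s) (ξ s) := by
      have := (hg (ξ s)).sub ((hasDerivAt_id (ξ s)).const_mul s)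
      refine this.congr_deriv ?_
      simp
    have := hloc.hasDerivAt_eq_zero hd
    linarith
  have hstrict : ∀ s s', |s - m| < η → |s' - m| < η → s < s' → ξ s < ξ s' := by
    intro s s' hs hs' hlt
    refine lt_of_le_of_ne (hmono hlt.le) ?_
    intro h
    have h1 := hder s hs
    have h2 := hder s' hs'
    rw [h, h2] at h1
    linarith
  have hwin : ∀ s, s ∈ Ioo (m - η) (m + η) ↔ |s - m| < η := by
    intro s
    rw [abs_lt, mem_Ioo]
    constructor
    · rintro ⟨h1, h2⟩
      constructor <;> linarith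
    · rintro ⟨h1, h2⟩
      constructor <;> linarith
  by_cases hlip : ∃ (K : ℝ) (p q : ℝ), p < q ∧ Ioo p q ⊆ Ioo (m - η) (m + η) ∧
      ∀ s ∈ Ioo p q, ∀ s' ∈ Ioo p q, s < s' → ξ s' - ξ s ≤ K * (s' - s)
  · -- `g1` is monotone on an interval
    obtain ⟨K, p, q, hpq, hsub, hK⟩ := hlip
    set p' := (2 * p + q) / 3 with hp'
    set q' := (p + 2 * q) / 3 with hq'
    have hp1 : p < p' := by rw [hp']; linarith
    have hpq' : p' < q' := by rw [hp', hq']; linarith
    have hq1 : q' < q := by rw [hq']; linarith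
    have hp'm : p' ∈ Ioo p q := ⟨hp1, hpq'.trans hq1⟩
    have hq'm : q' ∈ Ioo p q := ⟨hp1.trans hpq', hq1⟩
    have hsub' : Icc p' q' ⊆ Ioo p q := fun s hs => ⟨hp1.trans_le hs.1, hs.2.trans_lt hq1⟩
    have hcontξ : ContinuousOn ξ (Icc p' q') := by
      have : LipschitzOnWith (Real.toNNReal K) ξ (Icc p' q') := by
        apply LipschitzOnWith.of_dist_le_mul
        intro s hs s' hs'
        have hK0 : ∀ u ∈ Icc p' q', ∀ v ∈ Icc p' q', u ≤ v → |ξ u - ξ v| ≤ K.toNNReal * |u - v| := by
          intro u hu v hv huv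
          rcases huv.eq_or_lt with rfl | hlt
          · simp
          · have h1 := hK u (hsub' hu) v (hsub' hv) hlt
            have h2 := hmono huv
            rw [abs_sub_comm, abs_of_nonneg (sub_nonneg.2 h2), abs_sub_comm,
              abs_of_nonneg (sub_nonneg.2 huv)]
            refine h1.trans (mul_le_mul_of_nonneg_right (Real.le_coe_toNNReal K) (sub_nonneg.2 huv))
        rw [Real.dist_eq, Real.dist_eq]
        rcases le_total s s' with h | h
        · exact hK0 s hs s' hs' h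
        · rw [abs_sub_comm, abs_sub_comm s s']
          exact hK0 s' hs' s hs h
      exact this.continuousOn
    have hivt := intermediate_value_Icc hpq'.le hcontξ
    have hlt : ξ p' < ξ q' := hstrict p' q' ((hwin _).1 (hsub hp'm)) ((hwin _).1 (hsub hq'm)) hpq'
    refine hasD_of_monotoneOn g g1 hg (ξ p') (ξ q') hlt ?_
    intro x hx y hy hxy
    obtain ⟨s, hs, rfl⟩ := hivt (Ioo_subset_Icc_self hx)
    obtain ⟨s', hs', rfl⟩ := hivt (Ioo_subset_Icc_self hy)
    have hsw := (hwin _).1 (hsub (hsub' hs))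
    have hsw' := (hwin _).1 (hsub (hsub' hs'))
    rw [hder s hsw, hder s' hsw']
    by_contra hcon
    push Not at hcon
    exact absurd (hstrict s' s hsw' hsw hcon) (not_lt.2 hxy)
  · -- generic slopes have flat partners
    push Not at hlip
    -- good quadruples
    set V : ℕ → Set ℝ := fun n => {s | ∃ p q q' q'' : ℝ, p < s ∧ s < q ∧ q < q' ∧ q' < q'' ∧
      m - η < p ∧ q'' < m + η ∧ (n + 1 : ℝ) * (q'' - p) < 1 ∧ (n + 1 : ℝ) * (ξ q'' - ξ p) < 1 ∧
      (n + 1 : ℝ) * (q'' - p) < ξ q' - ξ q} with hV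
    have hVopen : ∀ n, IsOpen (V n) := by
      intro n
      rw [isOpen_iff_mem_nhds]
      rintro s ⟨p, q, q', q'', h1, h2, h3⟩
      filter_upwards [Ioo_mem_nhds h1 h2] with t ht
      exact ⟨p, q, q', q'', ht.1, ht.2, h3⟩
    have hVdense : ∀ n, ∀ p q, p < q → Ioo p q ⊆ Ioo (m - η) (m + η) → ∃ s ∈ Ioo p q, s ∈ V n := by
      intro n p q hpq hsub
      -- continuity point
      have hcount := hmono.countable_not_continuousAt
      obtain ⟨s0, hs0, hs0c⟩ : ∃ s ∈ Ioo p q, ContinuousAt ξ s := by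
        by_contra hcon
        push Not at hcon
        have hsubc : Ioo p q ⊆ {x | ¬ ContinuousAt ξ x} := fun s hs => hcon s hs
        have hc := hcount.mono hsubc
        have h0 := hc.measure_zero volume
        rw [Real.volume_Ioo] at h0
        simp at h0
        linarith
      have hn1 : (0 : ℝ) < n + 1 := by positivity
      have hev : ∀ᶠ s in 𝓝 s0, |ξ s - ξ s0| < 1 / (2 * (n + 1)) ∧ |s - s0| < 1 / (2 * (n + 1)) ∧
          s ∈ Ioo p q := by
        refine Filter.Eventually.and ?_ (Filter.Eventually.and ?_ (Ioo_mem_nhds hs0.1 hs0.2))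
        · have := Metric.tendsto_nhds.1 hs0c (1 / (2 * (n + 1))) (by positivity)
          simpa [Real.dist_eq] using this
        · have := Metric.ball_mem_nhds s0 (by positivity : (0 : ℝ) < 1 / (2 * (n + 1)))
          filter_upwards [this] with s hs
          rwa [Metric.mem_ball, Real.dist_eq] at hs
      obtain ⟨p1, q1, hs01, hpq1⟩ := (mem_nhds_iff_exists_Ioo_subset).1 hev
      have hp1q1 : p1 < q1 := hs01.1.trans hs01.2
      have hsub1 : Ioo p1 q1 ⊆ Ioo (m - η) (m + η) := fun s hs => hsub (hpq1 hs).2.2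
      obtain ⟨u, hu, u', hu', huu, hbig⟩ := hlip (n + 1) p1 q1 hp1q1 hsub1
      -- choose p2 < u < u' < q2
      have htend : Tendsto (fun δ : ℝ => (n + 1 : ℝ) * ((u' + δ) - (u - δ))) (𝓝[>] 0)
          (𝓝 ((n + 1 : ℝ) * ((u' + 0) - (u - 0)))) := by
        apply tendsto_nhdsWithin_of_tendsto_nhds
        exact Continuous.tendsto (by fun_prop) 0
      have hlt : (n + 1 : ℝ) * ((u' + 0) - (u - 0)) < ξ u' - ξ u := by
        have : (n + 1 : ℝ) * ((u' + 0) - (u - 0)) = (n + 1 : ℝ) * (u' - u) := by ring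
        rw [this]
        exact_mod_cast hbig
      have e1 : ∀ᶠ δ in 𝓝[>] (0 : ℝ), (n + 1 : ℝ) * ((u' + δ) - (u - δ)) < ξ u' - ξ u :=
        htend.eventually (gt_mem_nhds hlt)
      have e2 : ∀ᶠ δ in 𝓝[>] (0 : ℝ), δ < u - p1 :=
        mem_nhdsWithin_of_mem_nhds (gt_mem_nhds (sub_pos.2 hu.1))
      have e3 : ∀ᶠ δ in 𝓝[>] (0 : ℝ), δ < q1 - u' :=
        mem_nhdsWithin_of_mem_nhds (gt_mem_nhds (sub_pos.2 hu'.2))
      obtain ⟨δ, ⟨hδ1, hδ2, hδ3⟩, hδpos⟩ :=
        ((e1.and (e2.and e3)).and self_mem_nhdsWithin).exists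
      have hδpos : 0 < δ := hδpos
      have hpm : u - δ ∈ Ioo p1 q1 := ⟨by linarith, by linarith [hu.2]⟩
      have hqm : u' + δ ∈ Ioo p1 q1 := ⟨by linarith [hu'.1], by linarith⟩
      obtain ⟨a1, a2, a3⟩ := hpq1 hpm
      obtain ⟨b1, b2, b3⟩ := hpq1 hqm
      have hsm : u - δ / 2 ∈ Ioo p1 q1 := ⟨by linarith, by linarith [hu.2]⟩
      refine ⟨u - δ / 2, (hpq1 hsm).2.2, u - δ, u, u', u' + δ, by linarith, by linarith, huu,
        by linarith, (hsub1 hpm).1, (hsub1 hqm).2, ?_, ?_, hδ1⟩
      · have : (u' + δ) - (u - δ) < 1 / (n + 1) := by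
          have := abs_lt.1 a2
          have := abs_lt.1 b2
          have h5 : (1 : ℝ) / (n + 1) = 1 / (2 * (n + 1)) + 1 / (2 * (n + 1)) := by
            field_simp; ring
          rw [h5]; linarith
        rw [lt_div_iff₀ hn1] at this
        linarith
      · have : ξ (u' + δ) - ξ (u - δ) < 1 / (n + 1) := by
          have := abs_lt.1 a1
          have := abs_lt.1 b1
          have h5 : (1 : ℝ) / (n + 1) = 1 / (2 * (n + 1)) + 1 / (2 * (n + 1)) := by
            field_simp; ring
          rw [h5]; linarith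
        rw [lt_div_iff₀ hn1] at this
        linarith
    -- Baire
    set W : ℕ → Set ℝ := fun n => V n ∪ (Icc (m - η) (m + η))ᶜ with hW
    have hWopen : ∀ n, IsOpen (W n) := fun n => (hVopen n).union isClosed_Icc.isOpen_compl
    have hWdense : ∀ n, Dense (W n) := by
      intro n
      rw [dense_iff_inter_open]
      intro U hU ⟨s, hs⟩
      by_cases hcase : U ⊆ Icc (m - η) (m + η)
      · obtain ⟨p, q, hspq, hpqU⟩ := (mem_nhds_iff_exists_Ioo_subset).1 (hU.mem_nhds hs)
        have hsub : Ioo p q ⊆ Ioo (m - η) (m + η) := by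
          have : Ioo p q ⊆ interior (Icc (m - η) (m + η)) :=
            interior_maximal (hpqU.trans hcase) isOpen_Ioo
          rwa [interior_Icc] at this
        obtain ⟨t, ht, htV⟩ := hVdense n p q (hspq.1.trans hspq.2) hsub
        exact ⟨t, hpqU ht, Or.inl htV⟩
      · obtain ⟨t, ht, htn⟩ := not_subset.1 hcase
        exact ⟨t, ht, Or.inr htn⟩
    have hdense : Dense (⋂ n, W n) := dense_iInter_of_isOpen_nat hWopen hWdense
    have hpick : ∀ p q, p < q → Ioo p q ⊆ Ioo (m - η) (m + η) →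
        ∃ s ∈ Ioo p q, ∀ n, s ∈ V n := by
      intro p q hpq hsub
      obtain ⟨s, hs1, hs2⟩ := hdense.inter_open_nonempty (Ioo p q) isOpen_Ioo (nonempty_Ioo.2 hpq)
      refine ⟨s, hs1, fun n => ?_⟩
      rcases mem_iInter.1 hs2 n with h | h
      · exact h
      · exact absurd (Ioo_subset_Icc_self (hsub hs1)) h
    refine ⟨fun _ => 0, ξ '' {s | ∀ n, s ∈ V n}, ?_, ?_⟩
    · obtain ⟨s, -, hs⟩ := hpick (m - η) (m + η) (by linarith) (subset_refl _)
      exact ⟨ξ s, s, hs, rfl⟩
    · rintro _ ⟨s, hs, rfl⟩ ε hε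
      obtain ⟨n, hn⟩ := exists_nat_one_div_lt hε
      obtain ⟨p, q, q', q'', h1, h2, h3, h4, h5, h6, h7, h8, h9⟩ := hs n
      obtain ⟨s', hs'1, hs'2⟩ := hpick q' q'' h4
        (fun t ht => ⟨by linarith [ht.1], by linarith [ht.2]⟩)
      have hn1 : (0 : ℝ) < n + 1 := by positivity
      have hsw : |s - m| < η := (hwin s).1 ⟨by linarith, by linarith⟩
      have hsw' : |s' - m| < η := (hwin s').1 ⟨by linarith [hs'1.1], by linarith [hs'1.2]⟩
      have hss : s < s' := by linarith [hs'1.1]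
      have hlt := hstrict s s' hsw hsw' hss
      have hd1 := hder s hsw
      have hd2 := hder s' hsw'
      have hge : ξ q' - ξ q ≤ ξ s' - ξ s := by
        have := hmono h2.le
        have := hmono hs'1.1.le
        linarith
      have hle : ξ s' - ξ s ≤ ξ q'' - ξ p := by
        have := hmono h1.le
        have := hmono hs'1.2.le
        linarith
      have hslope : (n + 1 : ℝ) * (s' - s) ≤ ξ s' - ξ s := by
        have : (n + 1 : ℝ) * (s' - s) ≤ (n + 1 : ℝ) * (q'' - p) :=
          mul_le_mul_of_nonneg_left (by linarith [hs'1.2]) hn1.le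
        linarith
      have hslope' : s' - s ≤ ε * (ξ s' - ξ s) := by
        have h10 : s' - s ≤ 1 / (n + 1) * (ξ s' - ξ s) := by
          rw [one_div, ← div_eq_inv_mul, le_div_iff₀ hn1]
          linarith
        refine h10.trans (mul_le_mul_of_nonneg_right hn.le (by linarith))
      refine ⟨ξ s', ⟨s', hs'2, rfl⟩, hlt.ne', ?_, ?_, ?_, ?_⟩
      · rw [abs_of_pos (sub_pos.2 hlt)]
        have : ξ s' - ξ s < 1 / (n + 1) := by
          rw [lt_div_iff₀ hn1]
          have := mul_le_mul_of_nonneg_left hle hn1.le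
          linarith
        linarith
      · have k1 := hξ s _ (hξm s')
        have k2 := hξ s' _ (hξm s)
        rw [hd1]
        have k3 : 0 ≤ g (ξ s') - g (ξ s) - s * (ξ s' - ξ s) - 0 * (ξ s' - ξ s) ^ 2 / 2 := by
          linarith
        rw [abs_of_nonneg k3]
        have k4 : g (ξ s') - g (ξ s) - s * (ξ s' - ξ s) ≤ (s' - s) * (ξ s' - ξ s) := by
          linarith
        have k5 : (s' - s) * (ξ s' - ξ s) ≤ ε * (ξ s' - ξ s) * (ξ s' - ξ s) :=
          mul_le_mul_of_nonneg_right hslope' (by linarith)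
        linarith
      · rw [hd1, hd2]
        have k3 : 0 ≤ s' - s - 0 * (ξ s' - ξ s) := by linarith
        rw [abs_of_nonneg k3, abs_of_pos (sub_pos.2 hlt)]
        linarith
      · simp [hε.le]

/-- Main theorem in `C2` form. -/
theorem main (g : ℝ → ℝ) (hg : Differentiable ℝ g) :
    ∃ F : C2, ¬ Set.Countable {x : ℝ | F.f x = g x} := by
  have hg' : ∀ t, HasDerivAt g (deriv g t) t := fun t => (hg t).hasDerivAt
  by_cases h1 : ∃ a b c, a < c ∧ c < b ∧ g c < g a + (g b - g a) / (b - a) * (c - a)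
  · obtain ⟨a, b, c, hac, hcb, hdip⟩ := h1
    obtain ⟨A, D, hne, hD⟩ := hasD_of_dip g (deriv g) hg' a b c hac hcb hdip
    exact fusion D g (deriv g) A hg.continuous hne hD
  by_cases h2 : ∃ a b c, a < c ∧ c < b ∧
      (-g c) < (-g a) + ((-g b) - (-g a)) / (b - a) * (c - a)
  · obtain ⟨a, b, c, hac, hcb, hdip⟩ := h2
    obtain ⟨A, D, hne, hD⟩ := hasD_of_dip (fun t => - g t) (fun t => - deriv g t)
      (fun t => (hg' t).neg) a b c hac hcb hdip
    obtain ⟨F, hF⟩ := fusion D (fun t => - g t) (fun t => - deriv g t) A hg.continuous.neg hne hD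
    refine ⟨C2.smul (-1) F, fun hc => hF (hc.mono ?_)⟩
    intro x hx
    simp only [Set.mem_ofPred_eq] at hx ⊢
    simp only [C2.smul]
    linarith
  -- `g` is affine
  push Not at h1 h2
  have haff : ∀ a b c, a < c → c < b → g c = g a + (g b - g a) / (b - a) * (c - a) := by
    intro a b c hac hcb
    have e1 := h1 a b c hac hcb
    have e2 := h2 a b c hac hcb
    have e3 : ((-g b) - (-g a)) / (b - a) = - ((g b - g a) / (b - a)) := by ring
    rw [e3] at e2
    linarith
  let F : C2 :=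
    { f := fun t => g 0 + (g 1 - g 0) * t
      f1 := fun _ => g 1 - g 0
      f2 := fun _ => 0
      h1 := fun t => by
        have := ((hasDerivAt_id t).const_mul (g 1 - g 0)).const_add (g 0)
        refine this.congr_deriv ?_
        simp
      h2 := fun t => hasDerivAt_const _ _
      hc := continuous_const }
  refine ⟨F, fun hc => ?_⟩
  have hsub : Ioo (0 : ℝ) 1 ⊆ {x : ℝ | F.f x = g x} := by
    intro x hx
    have := haff 0 1 x hx.1 hx.2
    simp only [sub_zero, div_one] at this
    simp [F, this]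
  have h0 := (hc.mono hsub).measure_zero volume
  rw [Real.volume_Ioo] at h0
  simp at h0

end Pool.Agent.UZ
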