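import Mathlib

/-!
# UZ/Bump: a quadratic polynomial times a bump (MP_8d66ab_an, helper35)

PROOF. `χ = ContDiffBump (0 : ℝ)` with `rIn = 1/2`, `rOut = 1` (so `χ = 1` on `[-1/2,1/2]`, `χ = 0` for `|t| ≥ 1`, C^∞,
`0 ≤ χ ≤ 1`); `χ' = deriv χ`, `χ'' = deriv (deriv χ)` are continuous with compact support, hence bounded, and vanish for `|t| ≥ 1`
(or: bound them on `[-1,1]` by compactness and note that outside they vanish because `χ` is locally constant / by continuity).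
`K y = χ ((y - x)/ρ) * q y`, `q y = α + β (y-x) + γ (y-x)²/2`. On the support `|y - x| ≤ ρ ≤ 1`, so `|q| ≤ 3 τ ρ²`, `|q'| ≤ 2 τ ρ`,
`|q''| ≤ τ`. `K1 = χ'(·)/ρ q + χ q'`, `K2 = χ''(·)/ρ² q + 2 χ'(·)/ρ q' + χ q''`. So all are `≤ 10 max(1, sup|χ'|, sup|χ''|) τ`.
-/

namespace Pool.Agent.UZ

private theorem chi_exists : ∃ (χ c1 c2 : ℝ → ℝ) (B : ℝ), 1 ≤ B ∧ (∀ t, HasDerivAt χ (c1 t) t) ∧
    (∀ t, HasDerivAt c1 (c2 t) t) ∧ (∀ t, |χ t| ≤ 1) ∧ (∀ t, |c1 t| ≤ B) ∧ (∀ t, |c2 t| ≤ B) ∧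
    (∀ t, 1 ≤ |t| → χ t = 0) ∧ (∀ t, 1 < |t| → c1 t = 0) ∧ (∀ t, 1 < |t| → c2 t = 0) ∧
    (∀ t, |t| ≤ 1 / 2 → χ t = 1) := by
  let f : ContDiffBump (0 : ℝ) := ⟨1 / 2, 1, by norm_num, by norm_num⟩
  have hf : ContDiff ℝ 2 (f : ℝ → ℝ) := f.contDiff
  have hf1 : ContDiff ℝ 1 (deriv (f : ℝ → ℝ)) := by
    have h : ContDiff ℝ (1 + 1) (f : ℝ → ℝ) := hf
    exact (contDiff_succ_iff_deriv.mp h).2.2
  have hf2 : Continuous (deriv (deriv (f : ℝ → ℝ))) := hf1.continuous_deriv le_rfl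
  have hc1 : HasCompactSupport (deriv (f : ℝ → ℝ)) := f.hasCompactSupport.deriv
  have hc2 : HasCompactSupport (deriv (deriv (f : ℝ → ℝ))) := hc1.deriv
  obtain ⟨B1, hB1⟩ := hc1.exists_bound_of_continuous hf1.continuous
  obtain ⟨B2, hB2⟩ := hc2.exists_bound_of_continuous hf2
  have ht1 : ∀ t : ℝ, 1 < |t| → t ∉ tsupport (f : ℝ → ℝ) := by
    intro t ht
    rw [f.tsupport_eq, Metric.mem_closedBall, Real.dist_eq, sub_zero]
    exact not_le.mpr ht
  have hs1 : tsupport (deriv (f : ℝ → ℝ)) ⊆ tsupport (f : ℝ → ℝ) :=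
    closure_minimal (support_deriv_subset) (isClosed_tsupport _)
  refine ⟨f, deriv f, deriv (deriv f), max 1 (max B1 B2), le_max_left _ _, ?_, ?_, ?_, ?_, ?_, ?_,
    ?_, ?_, ?_⟩
  · intro t
    exact (hf.differentiable (by norm_num)).differentiableAt.hasDerivAt
  · intro t
    exact (hf1.differentiable (by norm_num)).differentiableAt.hasDerivAt
  · intro t
    rw [abs_of_nonneg f.nonneg]
    exact f.le_one
  · intro t
    exact (hB1 t).trans ((le_max_left _ _).trans (le_max_right _ _))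
  · intro t
    exact (hB2 t).trans ((le_max_right _ _).trans (le_max_right _ _))
  · intro t ht
    apply f.zero_of_le_dist
    rw [Real.dist_eq, sub_zero]
    exact ht
  · intro t ht
    by_contra hne
    exact ht1 t ht (support_deriv_subset hne)
  · intro t ht
    by_contra hne
    exact ht1 t ht (hs1 (support_deriv_subset hne))
  · intro t ht
    apply f.one_of_mem_closedBall
    rw [Metric.mem_closedBall, Real.dist_eq, sub_zero]
    exact ht

theorem bump : ∃ M : ℝ, 0 < M ∧ ∀ x ρ τ α β γ : ℝ, 0 < ρ → ρ ≤ 1 → |α| ≤ τ * ρ ^ 2 →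
    |β| ≤ τ * ρ → |γ| ≤ τ → ∃ K K1 K2 : ℝ → ℝ, (∀ y, HasDerivAt K (K1 y) y) ∧
      (∀ y, HasDerivAt K1 (K2 y) y) ∧ (∀ y, |K y| ≤ M * τ) ∧ (∀ y, |K1 y| ≤ M * τ) ∧
      (∀ y, |K2 y| ≤ M * τ) ∧ (∀ y, ρ ≤ |y - x| → K y = 0) ∧
      (∀ y, |y - x| ≤ ρ / 2 → K y = α + β * (y - x) + γ * (y - x) ^ 2 / 2) := by
  obtain ⟨χ, c1, c2, B, hB, hd1, hd2, hχ, hb1, hb2, hz, hz1, hz2, hone⟩ := chi_exists
  refine ⟨8 * B, by linarith, ?_⟩
  intro x ρ τ α β γ hρ hρ1 hα hβ hγ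
  have hτ : 0 ≤ τ := (abs_nonneg _).trans hγ
  have hρn : ρ ≠ 0 := hρ.ne'
  have habs : ∀ y, |(y - x) / ρ| = |y - x| / ρ := fun y => by rw [abs_div, abs_of_pos hρ]
  have hq0 : ∀ y, |y - x| ≤ ρ → |α + β * (y - x) + γ * (y - x) ^ 2 / 2| ≤ 3 * (τ * ρ ^ 2) := by
    intro y hy
    have h1 : |β * (y - x)| ≤ τ * ρ * ρ := by
      rw [abs_mul]
      exact mul_le_mul hβ hy (abs_nonneg _) (by positivity)
    have h2 : |γ * (y - x) ^ 2 / 2| ≤ τ * ρ ^ 2 := by
      rw [abs_div, abs_mul, abs_pow, abs_two]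
      have : |γ| * |y - x| ^ 2 ≤ τ * ρ ^ 2 :=
        mul_le_mul hγ (pow_le_pow_left₀ (abs_nonneg _) hy 2) (by positivity) hτ
      have h3 : 0 ≤ τ * ρ ^ 2 := by positivity
      linarith
    have h3 := abs_add_three α (β * (y - x)) (γ * (y - x) ^ 2 / 2)
    nlinarith
  have hq1 : ∀ y, |y - x| ≤ ρ → |β + γ * (y - x)| ≤ 2 * (τ * ρ) := by
    intro y hy
    have h1 : |γ * (y - x)| ≤ τ * ρ := by
      rw [abs_mul]
      exact mul_le_mul hγ hy (abs_nonneg _) hτ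
    have h3 := abs_add_le β (γ * (y - x))
    linarith
  refine ⟨fun y => χ ((y - x) / ρ) * (α + β * (y - x) + γ * (y - x) ^ 2 / 2),
    fun y => c1 ((y - x) / ρ) / ρ * (α + β * (y - x) + γ * (y - x) ^ 2 / 2) +
      χ ((y - x) / ρ) * (β + γ * (y - x)),
    fun y => c2 ((y - x) / ρ) / ρ ^ 2 * (α + β * (y - x) + γ * (y - x) ^ 2 / 2) +
      2 * (c1 ((y - x) / ρ) / ρ) * (β + γ * (y - x)) + χ ((y - x) / ρ) * γ, ?_, ?_, ?_, ?_, ?_,
    ?_, ?_⟩
  · intro y
    have e1 : HasDerivAt (fun y => (y - x) / ρ) (1 / ρ) y :=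
      ((hasDerivAt_id y).sub_const x).div_const ρ
    have e2 : HasDerivAt (fun y => χ ((y - x) / ρ)) (c1 ((y - x) / ρ) * (1 / ρ)) y :=
      (hd1 ((y - x) / ρ)).comp y e1
    have e3 : HasDerivAt (fun y => α + β * (y - x) + γ * (y - x) ^ 2 / 2) (β + γ * (y - x)) y := by
      have a1 := ((hasDerivAt_id y).sub_const x).const_mul β
      have a2 := ((((hasDerivAt_id y).sub_const x).pow 2).const_mul γ).div_const 2
      refine HasDerivAt.congr_deriv ((a1.const_add α).add a2) ?_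
      simp
      ring
    refine HasDerivAt.congr_deriv (e2.mul e3) ?_
    ring
  · intro y
    have e1 : HasDerivAt (fun y => (y - x) / ρ) (1 / ρ) y :=
      ((hasDerivAt_id y).sub_const x).div_const ρ
    have e2 : HasDerivAt (fun y => χ ((y - x) / ρ)) (c1 ((y - x) / ρ) * (1 / ρ)) y :=
      (hd1 ((y - x) / ρ)).comp y e1
    have e2' : HasDerivAt (fun y => c1 ((y - x) / ρ) / ρ) (c2 ((y - x) / ρ) * (1 / ρ) / ρ) y :=
      ((hd2 ((y - x) / ρ)).comp y e1).div_const ρ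
    have e3 : HasDerivAt (fun y => α + β * (y - x) + γ * (y - x) ^ 2 / 2) (β + γ * (y - x)) y := by
      have a1 := ((hasDerivAt_id y).sub_const x).const_mul β
      have a2 := ((((hasDerivAt_id y).sub_const x).pow 2).const_mul γ).div_const 2
      refine HasDerivAt.congr_deriv ((a1.const_add α).add a2) ?_
      simp
      ring
    have e4 : HasDerivAt (fun y => β + γ * (y - x)) γ y := by
      refine HasDerivAt.congr_deriv (((hasDerivAt_id y).sub_const x).const_mul γ |>.const_add β) ?_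
      simp
    refine HasDerivAt.congr_deriv ((e2'.mul e3).add (e2.mul e4)) ?_
    field_simp
    ring
  · intro y
    show |χ ((y - x) / ρ) * (α + β * (y - x) + γ * (y - x) ^ 2 / 2)| ≤ 8 * B * τ
    rcases le_or_gt |y - x| ρ with hy | hy
    · rw [abs_mul]
      have h1 : |χ ((y - x) / ρ)| * |α + β * (y - x) + γ * (y - x) ^ 2 / 2| ≤
          1 * (3 * (τ * ρ ^ 2)) := mul_le_mul (hχ _) (hq0 y hy) (abs_nonneg _) (by norm_num)
      have h2 : τ * ρ ^ 2 ≤ τ * 1 := mul_le_mul_of_nonneg_left (pow_le_one₀ hρ.le hρ1) hτ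
      have h3 : τ ≤ B * τ := by nlinarith
      linarith
    · rw [hz _ (by rw [habs, le_div_iff₀ hρ]; linarith), zero_mul, abs_zero]
      positivity
  · intro y
    show |c1 ((y - x) / ρ) / ρ * (α + β * (y - x) + γ * (y - x) ^ 2 / 2) +
      χ ((y - x) / ρ) * (β + γ * (y - x))| ≤ 8 * B * τ
    rcases le_or_gt |y - x| ρ with hy | hy
    · have h1 : |c1 ((y - x) / ρ) / ρ * (α + β * (y - x) + γ * (y - x) ^ 2 / 2)| ≤
          B / ρ * (3 * (τ * ρ ^ 2)) := by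
        rw [abs_mul, abs_div, abs_of_pos hρ]
        exact mul_le_mul (div_le_div_of_nonneg_right (hb1 _) hρ.le) (hq0 y hy) (abs_nonneg _)
          (by positivity)
      have h2 : |χ ((y - x) / ρ) * (β + γ * (y - x))| ≤ 1 * (2 * (τ * ρ)) := by
        rw [abs_mul]
        exact mul_le_mul (hχ _) (hq1 y hy) (abs_nonneg _) (by norm_num)
      have h3 : B / ρ * (3 * (τ * ρ ^ 2)) = 3 * B * τ * ρ := by
        field_simp
      have h4 : 3 * B * τ * ρ ≤ 3 * B * τ * 1 :=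
        mul_le_mul_of_nonneg_left hρ1 (by positivity)
      have h5 : τ * ρ ≤ τ * 1 := mul_le_mul_of_nonneg_left hρ1 hτ
      have h6 : τ ≤ B * τ := by nlinarith
      have h7 := abs_add_le (c1 ((y - x) / ρ) / ρ * (α + β * (y - x) + γ * (y - x) ^ 2 / 2))
        (χ ((y - x) / ρ) * (β + γ * (y - x)))
      nlinarith
    · have hgt : 1 < |(y - x) / ρ| := by rw [habs, lt_div_iff₀ hρ]; linarith
      rw [hz _ hgt.le, hz1 _ hgt, zero_div, zero_mul, zero_mul, add_zero, abs_zero]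
      positivity
  · intro y
    show |c2 ((y - x) / ρ) / ρ ^ 2 * (α + β * (y - x) + γ * (y - x) ^ 2 / 2) +
      2 * (c1 ((y - x) / ρ) / ρ) * (β + γ * (y - x)) + χ ((y - x) / ρ) * γ| ≤ 8 * B * τ
    rcases le_or_gt |y - x| ρ with hy | hy
    · have h1 : |c2 ((y - x) / ρ) / ρ ^ 2 * (α + β * (y - x) + γ * (y - x) ^ 2 / 2)| ≤
          B / ρ ^ 2 * (3 * (τ * ρ ^ 2)) := by
        rw [abs_mul, abs_div, abs_of_pos (by positivity : 0 < ρ ^ 2)]
        exact mul_le_mul (div_le_div_of_nonneg_right (hb2 _) (by positivity)) (hq0 y hy)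
          (abs_nonneg _) (by positivity)
      have h2 : |2 * (c1 ((y - x) / ρ) / ρ) * (β + γ * (y - x))| ≤ 2 * (B / ρ) * (2 * (τ * ρ)) := by
        rw [abs_mul, abs_mul, abs_div, abs_of_pos hρ, abs_two]
        refine mul_le_mul ?_ (hq1 y hy) (abs_nonneg _) (by positivity)
        exact mul_le_mul_of_nonneg_left (div_le_div_of_nonneg_right (hb1 _) hρ.le) (by norm_num)
      have h3 : |χ ((y - x) / ρ) * γ| ≤ 1 * τ := by
        rw [abs_mul]
        exact mul_le_mul (hχ _) hγ (abs_nonneg _) (by norm_num)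
      have h4 : B / ρ ^ 2 * (3 * (τ * ρ ^ 2)) = 3 * B * τ := by
        field_simp
      have h5 : 2 * (B / ρ) * (2 * (τ * ρ)) = 4 * B * τ := by
        field_simp
        ring
      have h6 : τ ≤ B * τ := by nlinarith
      have h7 := abs_add_three (c2 ((y - x) / ρ) / ρ ^ 2 * (α + β * (y - x) + γ * (y - x) ^ 2 / 2))
        (2 * (c1 ((y - x) / ρ) / ρ) * (β + γ * (y - x))) (χ ((y - x) / ρ) * γ)
      linarith
    · have hgt : 1 < |(y - x) / ρ| := by rw [habs, lt_div_iff₀ hρ]; linarith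
      rw [hz _ hgt.le, hz1 _ hgt, hz2 _ hgt]
      simp only [zero_div, zero_mul, mul_zero, add_zero, abs_zero]
      positivity
  · intro y hy
    show χ ((y - x) / ρ) * (α + β * (y - x) + γ * (y - x) ^ 2 / 2) = 0
    rw [hz _ (by rw [habs, le_div_iff₀ hρ]; linarith), zero_mul]
  · intro y hy
    show χ ((y - x) / ρ) * (α + β * (y - x) + γ * (y - x) ^ 2 / 2) = _
    rw [hone _ (by rw [habs, div_le_iff₀ hρ]; linarith), one_mul]

end Pool.Agent.UZ
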