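import Pool.Agent.UZ.Bump

/-!
# UZ/Key: the tree of Taylor jets (MP_8d66ab_an, helper35)

A jet is `a = (x, p, c)`; `T a y = g x + p (y - x) + c (y - x)²/2`.

PROOF. Nodes `l : List Bool` carry a jet `a_l ∈ A` and a radius `0 < r_l ≤ 1`; the children of `l` are `false :: l`, `true :: l`
(`step`). `f = T a_[] + ∑' l, h_l` with `|h_l|, |h_l'|, |h_l''| ≤ ε_l` (summable) is twice differentiable by `hasDerivAt_tsum`.
At a point `x` of the Cantor set the sum telescopes: `f x = lim T_(res s n) x = g x`.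
-/

namespace Pool.Agent.UZ

open Metric Set Filter Topology

private noncomputable def T (g : ℝ → ℝ) (a : ℝ × ℝ × ℝ) (y : ℝ) : ℝ :=
  g a.1 + a.2.1 * (y - a.1) + a.2.2 * (y - a.1) ^ 2 / 2

private theorem T_cont (g : ℝ → ℝ) (a : ℝ × ℝ × ℝ) : Continuous (T g a) := by
  unfold T; fun_prop

private theorem T_self (g : ℝ → ℝ) (a : ℝ × ℝ × ℝ) : T g a a.1 = g a.1 := by
  unfold T; simp

private theorem near (g : ℝ → ℝ) (hg : Continuous g) (u : ℝ × ℝ × ℝ) {ε : ℝ} (hε : 0 < ε) :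
    ∃ r : ℝ, 0 < r ∧ ∀ y, |y - u.1| ≤ r → |T g u y - g y| ≤ ε := by
  have hc : ContinuousAt (fun y => T g u y - g y) u.1 := ((T_cont g u).sub hg).continuousAt
  obtain ⟨r, hr, h⟩ := Metric.continuousAt_iff.1 hc ε hε
  refine ⟨r / 2, by positivity, fun y hy => ?_⟩
  have h1 := h (x := y) (by rw [Real.dist_eq]; linarith)
  simp only [T_self, sub_self, Real.dist_eq, sub_zero] at h1
  exact h1.le

private theorem coef {p c p1 c1 e δ τ r G : ℝ} (hp1 : |p1| ≤ |p| + 1) (hc1 : |c1| ≤ |c| + 1)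
    (he1 : |e| ≤ δ) (hδ0 : 0 ≤ δ) (hδ1 : δ ≤ 1) (h3 : |p1 - p| ≤ δ)
    (hCδ : (|p| + |c| + 2) * δ ≤ τ * r ^ 2 / 2) (hG : |G| ≤ τ * r ^ 2 / 2) (hτ : 0 ≤ τ)
    (hr : 0 ≤ r) (hr1 : r ≤ 1) :
    |G - p1 * e + c1 * e ^ 2 / 2| ≤ τ * r ^ 2 ∧ |p1 - p - c1 * e| ≤ τ * r := by
  have ha : 0 ≤ |p| := abs_nonneg p
  have hb : 0 ≤ |c| := abs_nonneg c
  have e1 : |p1 * e| ≤ (|p| + 1) * δ := by
    rw [abs_mul]
    exact mul_le_mul hp1 he1 (abs_nonneg _) (by linarith)
  have e2 : |c1 * e| ≤ (|c| + 1) * δ := by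
    rw [abs_mul]
    exact mul_le_mul hc1 he1 (abs_nonneg _) (by linarith)
  have e3 : |c1 * e ^ 2 / 2| ≤ (|c| + 1) * δ := by
    have e4 : |c1 * e ^ 2 / 2| = |c1 * e| * (|e| / 2) := by
      rw [abs_div, abs_mul, abs_mul, abs_two, abs_pow]; ring
    rw [e4]
    calc |c1 * e| * (|e| / 2) ≤ |c1 * e| * 1 :=
          mul_le_mul_of_nonneg_left (by linarith) (abs_nonneg _)
      _ ≤ _ := by rw [mul_one]; exact e2
  have e5 : (|p| + 1) * δ + (|c| + 1) * δ = (|p| + |c| + 2) * δ := by ring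
  constructor
  · have e6 : |G - p1 * e + c1 * e ^ 2 / 2| ≤ |G| + |p1 * e| + |c1 * e ^ 2 / 2| :=
      (abs_add_le _ _).trans (add_le_add_left (abs_sub _ _) _)
    linarith
  · have e6 : |p1 - p - c1 * e| ≤ |p1 - p| + |c1 * e| := abs_sub _ _
    have e7 : δ ≤ (|p| + 1) * δ := by
      have := mul_nonneg ha hδ0
      linarith
    have e8 : τ * r ^ 2 ≤ τ * r := by
      have : r ^ 2 ≤ r := by nlinarith
      exact mul_le_mul_of_nonneg_left this hτ
    have e9 : 0 ≤ τ * r ^ 2 := by positivity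
    linarith

private theorem step (g : ℝ → ℝ) (hg : Continuous g) (A : Set (ℝ × ℝ × ℝ))
    (hA : ∀ a ∈ A, ∀ δ > 0, ∃ u ∈ A, ∃ v ∈ A, u.1 ≠ v.1 ∧ |u.1 - a.1| < δ ∧ |v.1 - a.1| < δ ∧
      |u.2.1 - a.2.1| < δ ∧ |u.2.2 - a.2.2| < δ ∧ |v.2.2 - a.2.2| < δ ∧
      |g v.1 - g u.1 - u.2.1 * (v.1 - u.1) - u.2.2 * (v.1 - u.1) ^ 2 / 2| ≤ δ * (v.1 - u.1) ^ 2 ∧
      |v.2.1 - u.2.1 - u.2.2 * (v.1 - u.1)| ≤ δ * |v.1 - u.1|)
    {a : ℝ × ℝ × ℝ} (ha : a ∈ A) {r : ℝ} (hr : 0 < r) (hr1 : r ≤ 1) {ε : ℝ} (hε : 0 < ε) :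
    ∃ u ∈ A, ∃ v ∈ A, ∃ r' : ℝ, 0 < r' ∧ r' ≤ r / 2 ∧
      closedBall u.1 r' ⊆ closedBall a.1 r ∧ closedBall v.1 r' ⊆ closedBall a.1 r ∧
      Disjoint (closedBall u.1 r') (closedBall v.1 r') ∧
      (∀ y ∈ closedBall u.1 r', |T g u y - g y| ≤ ε) ∧
      (∀ y ∈ closedBall v.1 r', |T g v y - g y| ≤ ε) ∧
      ∃ h h1 h2 : ℝ → ℝ, (∀ y, HasDerivAt h (h1 y) y) ∧ (∀ y, HasDerivAt h1 (h2 y) y) ∧
        (∀ y, |h y| ≤ ε) ∧ (∀ y, |h1 y| ≤ ε) ∧ (∀ y, |h2 y| ≤ ε) ∧
        (∀ y, r ≤ |y - a.1| → h y = 0) ∧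
        (∀ y ∈ closedBall u.1 r', h y = T g u y - T g a y) ∧
        (∀ y ∈ closedBall v.1 r', h y = T g v y - T g a y) := by
  obtain ⟨M, hM, hbump⟩ := bump
  obtain ⟨x, p, c⟩ := a
  simp only at *
  obtain ⟨τ, hτ0, hMτ⟩ : ∃ τ : ℝ, 0 < τ ∧ M * τ = ε / 2 :=
    ⟨ε / (2 * M), by positivity, by field_simp⟩
  obtain ⟨C, hC⟩ : ∃ C : ℝ, C = |p| + |c| + 2 := ⟨_, rfl⟩
  have hC0 : 0 < C := by rw [hC]; positivity
  obtain ⟨δ₀, hδ₀, hcont⟩ := Metric.continuousAt_iff.1 (hg.continuousAt (x := x))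
    (τ * r ^ 2 / 2) (by positivity)
  obtain ⟨δ, hδ0, hδ1, hδr, hδτ, hδC, hδδ⟩ : ∃ δ : ℝ, 0 < δ ∧ δ ≤ 1 ∧ δ ≤ r / 8 ∧ δ ≤ τ / 4 ∧
      δ ≤ τ * r ^ 2 / (2 * C) ∧ δ ≤ δ₀ :=
    ⟨min (min 1 (r / 8)) (min (min (τ / 4) (τ * r ^ 2 / (2 * C))) δ₀),
      lt_min (lt_min one_pos (by positivity)) (lt_min (lt_min (by positivity) (by positivity)) hδ₀),
      (min_le_left _ _).trans (min_le_left _ _), (min_le_left _ _).trans (min_le_right _ _),
      (min_le_right _ _).trans ((min_le_left _ _).trans (min_le_left _ _)),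
      (min_le_right _ _).trans ((min_le_left _ _).trans (min_le_right _ _)),
      (min_le_right _ _).trans (min_le_right _ _)⟩
  have hCδ : C * δ ≤ τ * r ^ 2 / 2 := by
    rw [le_div_iff₀ (by positivity)] at hδC
    linarith
  obtain ⟨⟨u, p1, c1⟩, hu, ⟨v, p2, c2⟩, hv, huv, h1, h2, h3, h4, h5, h6, h7⟩ :=
    hA (x, p, c) ha δ hδ0
  simp only at huv h1 h2 h3 h4 h5 h6 h7
  obtain ⟨d, hd⟩ : ∃ d : ℝ, d = v - u := ⟨_, rfl⟩
  rw [← hd] at h6 h7
  have hd0 : 0 < |d| := by rw [hd]; exact abs_pos.2 (sub_ne_zero.2 (Ne.symm huv))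
  have hd2 : |d| ≤ 2 * δ := by
    have : d = (v - x) - (u - x) := by rw [hd]; ring
    rw [this]
    exact (abs_sub _ _).trans (by linarith)
  have hp1 : |p1| ≤ |p| + 1 := by
    have := abs_sub_abs_le_abs_sub p1 p
    linarith
  have hc1 : |c1| ≤ |c| + 1 := by
    have := abs_sub_abs_le_abs_sub c1 c
    linarith
  have hgu : |g u - g x| ≤ τ * r ^ 2 / 2 := by
    have := hcont (x := u) (by rw [Real.dist_eq]; linarith)
    rw [Real.dist_eq] at this
    exact this.le
  obtain ⟨e, he⟩ : ∃ e : ℝ, e = u - x := ⟨_, rfl⟩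
  have he1 : |e| ≤ δ := by rw [he]; exact h1.le
  obtain ⟨hα, hβ⟩ := coef (G := g u - g x) hp1 hc1 he1 hδ0.le hδ1 h3.le (hC ▸ hCδ) hgu hτ0.le hr.le hr1
  have hγ : |c1 - c| ≤ τ := by linarith
  obtain ⟨K, K1, K2, hK1, hK2, hKb, hK1b, hK2b, hKout, hKin⟩ :=
    hbump x r τ _ _ _ hr hr1 hα hβ hγ
  have hρ : 0 < |d| / 2 := by positivity
  have hα' : |g v - g u - p1 * d - c1 * d ^ 2 / 2| ≤ τ * (|d| / 2) ^ 2 := by
    refine h6.trans ?_
    have : (|d| / 2) ^ 2 = d ^ 2 / 4 := by rw [div_pow, sq_abs]; norm_num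
    rw [this]
    nlinarith [sq_nonneg d]
  have hβ' : |p2 - p1 - c1 * d| ≤ τ * (|d| / 2) := by
    refine h7.trans ?_
    nlinarith
  have hγ' : |c2 - c1| ≤ τ := by
    have : c2 - c1 = (c2 - c) - (c1 - c) := by ring
    rw [this]
    have := abs_sub (c2 - c) (c1 - c)
    linarith
  obtain ⟨J, J1, J2, hJ1, hJ2, hJb, hJ1b, hJ2b, hJout, hJin⟩ :=
    hbump v (|d| / 2) τ _ _ _ hρ (by linarith) hα' hβ' hγ'
  obtain ⟨ru, hru, hnu⟩ := near g hg (u, p1, c1) hε
  obtain ⟨rv, hrv, hnv⟩ := near g hg (v, p2, c2) hε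
  obtain ⟨r', hr'0, hr'd, hr'r, hr'u, hr'v⟩ : ∃ r' : ℝ, 0 < r' ∧ r' ≤ |d| / 8 ∧ r' ≤ r / 8 ∧
      r' ≤ ru ∧ r' ≤ rv :=
    ⟨min (min (|d| / 8) (r / 8)) (min ru rv),
      lt_min (lt_min (by positivity) (by positivity)) (lt_min hru hrv),
      (min_le_left _ _).trans (min_le_left _ _), (min_le_left _ _).trans (min_le_right _ _),
      (min_le_right _ _).trans (min_le_left _ _), (min_le_right _ _).trans (min_le_right _ _)⟩
  have hbu : ∀ y ∈ closedBall u r', |y - x| ≤ r / 4 := by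
    intro y hy
    rw [mem_closedBall, Real.dist_eq] at hy
    have : y - x = (y - u) + (u - x) := by ring
    rw [this]
    exact (abs_add_le _ _).trans (by linarith)
  have hbv : ∀ y ∈ closedBall v r', |y - x| ≤ r / 4 := by
    intro y hy
    rw [mem_closedBall, Real.dist_eq] at hy
    have : y - x = (y - v) + (v - x) := by ring
    rw [this]
    exact (abs_add_le _ _).trans (by linarith)
  have hfar : ∀ y ∈ closedBall u r', |d| / 2 ≤ |y - v| := by
    intro y hy
    rw [mem_closedBall, Real.dist_eq] at hy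
    have e1 : |d| ≤ |y - v| + |y - u| := by
      have : d = (y - u) - (y - v) := by rw [hd]; ring
      rw [this]
      exact (abs_sub _ _).trans (by linarith)
    linarith
  refine ⟨(u, p1, c1), hu, (v, p2, c2), hv, r', hr'0, by linarith, ?_, ?_, ?_, ?_, ?_,
    fun y => K y + J y, fun y => K1 y + J1 y, fun y => K2 y + J2 y, fun y => (hK1 y).add (hJ1 y),
    fun y => (hK2 y).add (hJ2 y), ?_, ?_, ?_, ?_, ?_, ?_⟩
  · intro y hy
    rw [mem_closedBall, Real.dist_eq]
    linarith [hbu y hy]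
  · intro y hy
    rw [mem_closedBall, Real.dist_eq]
    linarith [hbv y hy]
  · rw [Set.disjoint_left]
    intro y hy hy'
    have e1 := hfar y hy
    rw [mem_closedBall, Real.dist_eq] at hy'
    linarith
  · intro y hy
    rw [mem_closedBall, Real.dist_eq] at hy
    exact hnu y (hy.trans hr'u)
  · intro y hy
    rw [mem_closedBall, Real.dist_eq] at hy
    exact hnv y (hy.trans hr'v)
  · intro y
    exact (abs_add_le _ _).trans (by linarith [hKb y, hJb y])
  · intro y
    exact (abs_add_le _ _).trans (by linarith [hK1b y, hJ1b y])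
  · intro y
    exact (abs_add_le _ _).trans (by linarith [hK2b y, hJ2b y])
  · intro y hy
    simp only at hy ⊢
    rw [hKout y hy, hJout y, add_zero]
    have e1 : |y - x| ≤ |y - v| + |v - x| := by
      have : y - x = (y - v) + (v - x) := by ring
      rw [this]
      exact abs_add_le _ _
    linarith
  · intro y hy
    simp only at hy ⊢
    rw [hKin y (by linarith [hbu y hy]), hJout y (hfar y hy), add_zero]
    unfold T
    simp only
    rw [he]
    ring
  · intro y hy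
    simp only at hy ⊢
    have e1 : |y - v| ≤ |d| / 2 / 2 := by
      rw [mem_closedBall, Real.dist_eq] at hy
      linarith
    rw [hKin y (by linarith [hbv y hy]), hJin y e1]
    unfold T
    simp only
    rw [he, hd]
    ring

private theorem bool_seq_not_countable (F : (ℕ → Bool) → ℝ) (hF : Function.Injective F)
    (S : Set ℝ) (hS : ∀ s, F s ∈ S) : ¬ S.Countable := by
  intro hc
  have h1 : (Set.range F).Countable := hc.mono (by rintro _ ⟨s, rfl⟩; exact hS s)
  have h2 : (Set.univ : Set (ℕ → Bool)).Countable := by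
    rw [← Set.image_univ] at h1
    exact Set.countable_of_injective_of_countable_image hF.injOn h1
  have h3 : Countable (ℕ → Bool) := Set.countable_univ_iff.1 h2
  obtain ⟨e, he⟩ := exists_surjective_nat (ℕ → Bool)
  obtain ⟨n, hn⟩ := he (fun k => !(e k k))
  have := congrFun hn n
  simp at this

theorem key (g : ℝ → ℝ) (hg : Continuous g) (A : Set (ℝ × ℝ × ℝ)) (hne : A.Nonempty)
    (hA : ∀ a ∈ A, ∀ δ > 0, ∃ u ∈ A, ∃ v ∈ A, u.1 ≠ v.1 ∧ |u.1 - a.1| < δ ∧ |v.1 - a.1| < δ ∧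
      |u.2.1 - a.2.1| < δ ∧ |u.2.2 - a.2.2| < δ ∧ |v.2.2 - a.2.2| < δ ∧
      |g v.1 - g u.1 - u.2.1 * (v.1 - u.1) - u.2.2 * (v.1 - u.1) ^ 2 / 2| ≤ δ * (v.1 - u.1) ^ 2 ∧
      |v.2.1 - u.2.1 - u.2.2 * (v.1 - u.1)| ≤ δ * |v.1 - u.1|) :
    ∃ f : ℝ → ℝ, Differentiable ℝ f ∧ Differentiable ℝ (deriv f) ∧
      ¬ Set.Countable {x : ℝ | f x = g x} := by
  classical
  obtain ⟨a₀, ha₀⟩ := hne
  let N := {n : (ℝ × ℝ × ℝ) × ℝ // n.1 ∈ A ∧ 0 < n.2 ∧ n.2 ≤ 1}
  let X : N → Set ℝ := fun n => closedBall n.1.1.1 n.1.2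
  let εs : List Bool → ℝ := fun l => (1 / 2) ^ (Encodable.encode l)
  have hεs : ∀ l, 0 < εs l := fun l => by positivity
  have step' : ∀ (n : N) (l : List Bool), ∃ (c : Bool → N) (h h1 h2 : ℝ → ℝ),
      (∀ b, (c b).1.2 ≤ n.1.2 / 2) ∧ (∀ b, X (c b) ⊆ X n) ∧ Disjoint (X (c false)) (X (c true)) ∧
      (∀ b, ∀ y ∈ X (c b), |T g (c b).1.1 y - g y| ≤ εs l) ∧
      (∀ y, HasDerivAt h (h1 y) y) ∧ (∀ y, HasDerivAt h1 (h2 y) y) ∧
        (∀ y, |h y| ≤ εs l) ∧ (∀ y, |h1 y| ≤ εs l) ∧ (∀ y, |h2 y| ≤ εs l) ∧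
        (∀ y, y ∉ X n → h y = 0) ∧
        (∀ b, ∀ y ∈ X (c b), h y = T g (c b).1.1 y - T g n.1.1 y) := by
    intro n l
    obtain ⟨⟨a, r⟩, ha, hr, hr1⟩ := n
    simp only at ha hr hr1
    obtain ⟨u, hu, v, hv, r', hr'0, hr'2, hsu, hsv, hdis, hTu, hTv, h, h1, h2, H1, H2, B0, B1, B2,
      Hout, Hu, Hv⟩ := step g hg A hA ha hr hr1 (hεs l)
    refine ⟨fun b => if b then ⟨(v, r'), hv, hr'0, by simp only; linarith⟩ else
      ⟨(u, r'), hu, hr'0, by simp only; linarith⟩, h, h1, h2, ?_, ?_, ?_, ?_, H1, H2, B0, B1, B2,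
      ?_, ?_⟩
    · intro b; cases b <;> simpa using hr'2
    · intro b; cases b
      · simpa [X] using hsu
      · simpa [X] using hsv
    · simpa [X] using hdis
    · intro b; cases b
      · simpa [X] using hTu
      · simpa [X] using hTv
    · intro y hy
      apply Hout
      simp only [X, mem_closedBall, Real.dist_eq, not_le] at hy
      exact hy.le
    · intro b; cases b
      · simpa [X] using Hu
      · simpa [X] using Hv
  choose c h h1 h2 hc1 hc2 hc3 hc4 H1 H2 B0 B1 B2 Hout Hin using step'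
  let root : N := ⟨(a₀, 1), ha₀, one_pos, le_rfl⟩
  let node : List Bool → N := fun l => List.rec (motive := fun _ => N) root
    (fun b l ih => c ih l b) l
  have node_cons : ∀ b l, node (b :: l) = c (node l) l b := fun b l => rfl
  let H : List Bool → ℝ → ℝ := fun l => h (node l) l
  let G1 : List Bool → ℝ → ℝ := fun l => h1 (node l) l
  let G2 : List Bool → ℝ → ℝ := fun l => h2 (node l) l
  have hsum : Summable εs :=
    (summable_geometric_of_lt_one (by norm_num : (0 : ℝ) ≤ 1 / 2) (by norm_num)).comp_injective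
      (Encodable.encode_injective (α := List Bool))
  have hS0 : ∀ y, Summable fun l => H l y := fun y =>
    Summable.of_norm_bounded hsum fun l => B0 (node l) l y
  have hS1 : ∀ y, Summable fun l => G1 l y := fun y =>
    Summable.of_norm_bounded hsum fun l => B1 (node l) l y
  have hD1 : ∀ y, HasDerivAt (fun z => ∑' l, H l z) (∑' l, G1 l y) y := fun y =>
    hasDerivAt_tsum hsum (fun l z => H1 (node l) l z) (fun l z => B1 (node l) l z) (hS0 0) y
  have hD2 : ∀ y, HasDerivAt (fun z => ∑' l, G1 l z) (∑' l, G2 l y) y := fun y =>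
    hasDerivAt_tsum hsum (fun l z => H2 (node l) l z) (fun l z => B2 (node l) l z) (hS1 0) y
  have hT1 : ∀ y, HasDerivAt (T g a₀) (a₀.2.1 + a₀.2.2 * (y - a₀.1)) y := by
    intro y
    have e1 : HasDerivAt (fun y : ℝ => y - a₀.1) 1 y := (hasDerivAt_id y).sub_const _
    have e2 : HasDerivAt (T g a₀)
        (a₀.2.1 * 1 + a₀.2.2 * (((2 : ℕ) : ℝ) * (y - a₀.1) ^ (2 - 1) * 1) / 2) y :=
      ((e1.const_mul a₀.2.1).const_add (g a₀.1)).add (((e1.pow 2).const_mul a₀.2.2).div_const 2)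
    have e3 : a₀.2.1 * 1 + a₀.2.2 * (((2 : ℕ) : ℝ) * (y - a₀.1) ^ (2 - 1) * 1) / 2 =
        a₀.2.1 + a₀.2.2 * (y - a₀.1) := by
      push_cast
      norm_num
      ring
    rw [← e3]
    exact e2
  have hT2 : ∀ y, HasDerivAt (fun y => a₀.2.1 + a₀.2.2 * (y - a₀.1)) (a₀.2.2) y := by
    intro y
    have e1 : HasDerivAt (fun y : ℝ => y - a₀.1) 1 y := (hasDerivAt_id y).sub_const _
    have e2 := (e1.const_mul a₀.2.2).const_add (a₀.2.1)
    simpa using e2
  have hF1 : ∀ y, HasDerivAt (fun z => T g a₀ z + ∑' l, H l z)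
      ((a₀.2.1 + a₀.2.2 * (y - a₀.1)) + ∑' l, G1 l y) y := fun y => (hT1 y).add (hD1 y)
  have hF2 : ∀ y, HasDerivAt (fun z => (a₀.2.1 + a₀.2.2 * (z - a₀.1)) + ∑' l, G1 l z)
      (a₀.2.2 + ∑' l, G2 l y) y := fun y => (hT2 y).add (hD2 y)
  refine ⟨fun z => T g a₀ z + ∑' l, H l z, fun y => (hF1 y).differentiableAt, ?_, ?_⟩
  · have : deriv (fun z => T g a₀ z + ∑' l, H l z) =
        fun z => (a₀.2.1 + a₀.2.2 * (z - a₀.1)) + ∑' l, G1 l z := funext fun y => (hF1 y).deriv
    rw [this]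
    exact fun y => (hF2 y).differentiableAt
  · -- the Cantor set
    have hpt : ∀ s : ℕ → Bool, (⋂ n, X (node (PiNat.res s n))).Nonempty := by
      intro s
      refine IsCompact.nonempty_iInter_of_sequence_nonempty_isCompact_isClosed _ ?_ ?_ ?_ ?_
      · intro n
        rw [PiNat.res_succ, node_cons]
        exact hc2 _ _ _
      · intro n
        exact ⟨(node (PiNat.res s n)).1.1.1, mem_closedBall_self (node (PiNat.res s n)).2.2.1.le⟩
      · exact isCompact_closedBall _ _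
      · intro n
        exact isClosed_closedBall
    choose F hF using hpt
    have hFm : ∀ s n, F s ∈ X (node (PiNat.res s n)) := fun s n => mem_iInter.1 (hF s) n
    have huniq : ∀ (s : ℕ → Bool) (l : List Bool), F s ∈ X (node l) →
        l = PiNat.res s l.length := by
      intro s l
      induction l with
      | nil => intro _; rfl
      | cons b l ih =>
        intro hx
        have e1 : F s ∈ X (node l) := by
          rw [node_cons] at hx
          exact hc2 _ _ _ hx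
        have e2 := ih e1
        have e3 := hFm s (l.length + 1)
        rw [PiNat.res_succ, ← e2] at e3
        rw [List.length_cons, PiNat.res_succ, ← e2]
        have e4 : s l.length = b := by
          by_contra hne
          rw [node_cons] at hx e3
          have hd := hc3 (node l) l
          rw [Set.disjoint_left] at hd
          cases hb : b <;> cases hs : s l.length
          · exact hne (hs.trans hb.symm)
          · rw [hb] at hx; rw [hs] at e3; exact hd hx e3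
          · rw [hb] at hx; rw [hs] at e3; exact hd e3 hx
          · exact hne (hs.trans hb.symm)
        rw [e4]
    apply bool_seq_not_countable F
    · intro s s' hss
      apply PiNat.res_injective
      funext n
      have e1 := hFm s' n
      rw [← hss] at e1
      have e2 := huniq s _ e1
      rw [PiNat.res_length] at e2
      exact e2.symm
    · intro s
      show T g a₀ (F s) + ∑' l, H l (F s) = g (F s)
      set x := F s with hx
      set t : ℕ → ℝ := fun n => T g (node (PiNat.res s n)).1.1 x with ht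
      have hinj : Function.Injective (PiNat.res s) := by
        intro m n hmn
        have := congrArg List.length hmn
        rwa [PiNat.res_length, PiNat.res_length] at this
      have hval : ∀ n, H (PiNat.res s n) x = t (n + 1) - t n := by
        intro n
        have e1 := hFm s (n + 1)
        rw [PiNat.res_succ, node_cons] at e1
        have e2 := Hin (node (PiNat.res s n)) (PiNat.res s n) (s n) x e1
        simp only [H, ht]
        rw [e2, PiNat.res_succ, node_cons]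
      have hsupp : ∀ l, l ∉ Set.range (PiNat.res s) → H l x = 0 := by
        intro l hl
        apply Hout
        intro hx'
        exact hl ⟨l.length, (huniq s l hx').symm⟩
      have hts : ∑' l, H l x = ∑' n, H (PiNat.res s n) x :=
        (hinj.tsum_eq (f := fun l => H l x) (fun l hl => by
          by_contra hl'
          exact hl (hsupp l hl'))).symm
      have hsn : Summable fun n => H (PiNat.res s n) x :=
        (hS0 x).comp_injective hinj
      have hlim : Tendsto t atTop (𝓝 (g x)) := by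
        rw [← tendsto_add_atTop_iff_nat 1]
        have hε0 : Tendsto (fun n => εs (PiNat.res s n)) atTop (𝓝 0) :=
          (hsum.comp_injective hinj).tendsto_atTop_zero
        rw [tendsto_iff_norm_sub_tendsto_zero]
        refine squeeze_zero (fun n => norm_nonneg _) (fun n => ?_) hε0
        have e1 := hFm s (n + 1)
        rw [PiNat.res_succ, node_cons] at e1
        have e2 := hc4 (node (PiNat.res s n)) (PiNat.res s n) (s n) x e1
        simp only [ht]
        rw [PiNat.res_succ, node_cons]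
        exact e2
      have hpart : Tendsto (fun n => ∑ i ∈ Finset.range n, H (PiNat.res s i) x) atTop
          (𝓝 (g x - t 0)) := by
        have e1 : ∀ n, ∑ i ∈ Finset.range n, H (PiNat.res s i) x = t n - t 0 := by
          intro n
          rw [← Finset.sum_range_sub]
          exact Finset.sum_congr rfl fun i _ => hval i
        simp only [e1]
        exact hlim.sub_const _
      have e2 := tendsto_nhds_unique hsn.hasSum.tendsto_sum_nat hpart
      rw [hts, e2]
      have e3 : t 0 = T g a₀ x := rfl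
      rw [e3]
      ring

end Pool.Agent.UZ
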