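import Mathlib

/-!
# UZ/Legendre: exact bitangents, or a monotone derivative (MP_8d66ab_an, helper35)

PROOF. `s₁ = (g q - g p)/(q - p) < s₂ = (g r - g q)/(r - q)` (because `g q` is below the chord). For `s ∈ (s₁, s₂)` let
`Arg s = {x ∈ [p,r] : x maximizes s x - g x on [p,r]}`: nonempty, compact; `p, r ∉ Arg s` (compare with `q`), so `Arg s ⊆ (p,r)` and
`g' = s` on `Arg s` (Fermat). If `s < s'`, `x ∈ Arg s`, `x' ∈ Arg s'` then `x ≤ x'` (add the two maximality inequalities) and `x ≠ x'`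
(`g' = s` and `g' = s'`), so `x < x'`. `L s = min`, `R s = max`. SEMICONTINUITY: for `ε > 0` there is `η > 0` with `Arg s' ⊆ (.., R s + ε)`
for `s' ∈ (s, s+η)`: on the compact set `[R s + ε, r]`, `s x - g x ≤ max - κ` with `κ > 0`, and `η = κ/(r-p)` works
(or by sequences/compactness). Symmetrically `Arg s' ⊆ (L s - ε, ..)` for `s' ∈ (s - η, s)`.
Let `B = {s ∈ (s₁,s₂) : L s < R s}` (`Arg s` has two points).
CASE 1: `B` is not dense: there is `(t₁,t₂) ⊆ (s₁,s₂)` with `Arg s = {x s}` for `s ∈ (t₁,t₂)`; `x` is strictly increasing and continuous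
(semicontinuity on both sides), so by the intermediate value theorem each `y` between two values `x t`, `x t'` is `x s`, and `g' y = s`:
`deriv g` is monotone on `(x t, x t')`. First alternative.
CASE 2: `B` is dense. `A = {(x, s, 0) : s ∈ B, x = L s ∨ x = R s}`. For `a = (R s, s, 0)` and `δ`: take `s' ∈ B`, `s < s' < s + min δ η`,
`u = (L s', s', 0)`, `v = (R s', s', 0)`: `R s < L s' < R s' < R s + δ`, `g v.1 - g u.1 = s' (v.1 - u.1)` because both maximize
`s' x - g x`. For `a = (L s, s, 0)` take `s' ∈ B` slightly less than `s`.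
-/

namespace Pool.Agent.UZ

/-- the maximizers of `s x - g x` on `[p, r]` -/
private def ArgM (g : ℝ → ℝ) (p r s : ℝ) : Set ℝ :=
  {x | x ∈ Set.Icc p r ∧ ∀ y ∈ Set.Icc p r, s * y - g y ≤ s * x - g x}

private theorem argM_nonempty {g : ℝ → ℝ} (hg : Continuous g) {p r : ℝ} (hpr : p ≤ r) (s : ℝ) :
    (ArgM g p r s).Nonempty := by
  obtain ⟨x, hx, hmax⟩ := isCompact_Icc.exists_isMaxOn (Set.nonempty_Icc.mpr hpr)
    (f := fun x => s * x - g x) (((continuous_const.mul continuous_id).sub hg).continuousOn)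
  exact ⟨x, hx, fun y hy => hmax hy⟩

private theorem argM_compact {g : ℝ → ℝ} (hg : Continuous g) {p r : ℝ} (hpr : p ≤ r) (s : ℝ) :
    IsCompact (ArgM g p r s) := by
  obtain ⟨x0, hx0, hx0m⟩ := argM_nonempty hg hpr s
  have h1 : ArgM g p r s = Set.Icc p r ∩ {x | s * x0 - g x0 ≤ s * x - g x} := by
    ext x
    constructor
    · rintro ⟨hx, hm⟩
      exact ⟨hx, hm x0 hx0⟩
    · rintro ⟨hx, hm⟩
      exact ⟨hx, fun y hy => (hx0m y hy).trans hm⟩
  rw [h1]
  exact isCompact_Icc.inter_right (isClosed_le continuous_const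
    ((continuous_const.mul continuous_id).sub hg))

/-- semicontinuity -/
private theorem argM_semi {g : ℝ → ℝ} (hg : Continuous g) {p r : ℝ} (hpr : p < r) (s : ℝ)
    {C : Set ℝ} (hC : IsClosed C) (h : ∀ x ∈ ArgM g p r s, x ∉ C) :
    ∃ η > 0, ∀ s', |s' - s| < η → ∀ x ∈ ArgM g p r s', x ∉ C := by
  rcases (Set.Icc p r ∩ C).eq_empty_or_nonempty with he | hne
  · refine ⟨1, one_pos, fun s' _ x hx hxC => ?_⟩
    have : x ∈ Set.Icc p r ∩ C := ⟨hx.1, hxC⟩
    rw [he] at this
    exact this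
  · obtain ⟨x1, hx1, hmax⟩ := (isCompact_Icc.inter_right hC).exists_isMaxOn hne
      (f := fun x => s * x - g x) (((continuous_const.mul continuous_id).sub hg).continuousOn)
    obtain ⟨x0, hx0, hx0m⟩ := argM_nonempty hg hpr.le s
    have hκ : s * x1 - g x1 < s * x0 - g x0 := by
      by_contra hc
      rw [not_lt] at hc
      exact h x1 ⟨hx1.1, fun y hy => (hx0m y hy).trans hc⟩ hx1.2
    refine ⟨((s * x0 - g x0) - (s * x1 - g x1)) / (r - p),
      div_pos (by linarith) (by linarith), ?_⟩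
    intro s' hs' x hx hxC
    rw [lt_div_iff₀ (by linarith)] at hs'
    have h1 : s * x - g x ≤ s * x1 - g x1 := hmax ⟨hx.1, hxC⟩
    have h2 := hx.2 x0 hx0
    have h3 : (s' - s) * (x - x0) ≤ |s' - s| * (r - p) := by
      refine (le_abs_self _).trans ?_
      rw [abs_mul]
      apply mul_le_mul_of_nonneg_left _ (abs_nonneg _)
      rw [abs_le]
      constructor <;> linarith [hx.1.1, hx.1.2, hx0.1, hx0.2]
    linarith

theorem legendre (g : ℝ → ℝ) (hg : Differentiable ℝ g) {p q r : ℝ} (hpq : p < q) (hqr : q < r)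
    (h : (g q - g p) / (q - p) < (g r - g q) / (r - q)) :
    (∃ a b : ℝ, a < b ∧ MonotoneOn (deriv g) (Set.Ioo a b)) ∨
    ∃ A : Set (ℝ × ℝ × ℝ), A.Nonempty ∧
      ∀ a ∈ A, ∀ δ > 0, ∃ u ∈ A, ∃ v ∈ A, u.1 ≠ v.1 ∧ |u.1 - a.1| < δ ∧ |v.1 - a.1| < δ ∧
      |u.2.1 - a.2.1| < δ ∧ |u.2.2 - a.2.2| < δ ∧ |v.2.2 - a.2.2| < δ ∧
      |g v.1 - g u.1 - u.2.1 * (v.1 - u.1) - u.2.2 * (v.1 - u.1) ^ 2 / 2| ≤ δ * (v.1 - u.1) ^ 2 ∧
      |v.2.1 - u.2.1 - u.2.2 * (v.1 - u.1)| ≤ δ * |v.1 - u.1| := by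
  have hgc : Continuous g := hg.continuous
  have hpr : p < r := hpq.trans hqr
  set s1 := (g q - g p) / (q - p) with hs1
  set s2 := (g r - g q) / (r - q) with hs2
  have hin : ∀ s, s1 < s → s < s2 → ∀ x ∈ ArgM g p r s, p < x ∧ x < r := by
    intro s h1 h2 x hx
    rw [hs1, div_lt_iff₀ (by linarith)] at h1
    rw [hs2, lt_div_iff₀ (by linarith)] at h2
    have h3 := hx.2 q ⟨hpq.le, hqr.le⟩
    constructor
    · rcases eq_or_lt_of_le hx.1.1 with he | he
      · exfalso
        rw [← he] at h3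
        linarith
      · exact he
    · rcases eq_or_lt_of_le hx.1.2 with he | he
      · exfalso
        rw [he] at h3
        linarith
      · exact he
  have hder : ∀ s, s1 < s → s < s2 → ∀ x ∈ ArgM g p r s, deriv g x = s := by
    intro s h1 h2 x hx
    obtain ⟨h3, h4⟩ := hin s h1 h2 x hx
    have h5 : IsLocalMax (fun x => s * x - g x) x := by
      filter_upwards [Icc_mem_nhds h3 h4] with y hy
      exact hx.2 y hy
    have h6 : HasDerivAt (fun x => s * x - g x) (s * 1 - deriv g x) x :=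
      ((hasDerivAt_id x).const_mul s).sub (hg x).hasDerivAt
    have h7 := h5.hasDerivAt_eq_zero h6
    linarith
  have hlt : ∀ s s', s1 < s → s < s' → s' < s2 → ∀ x ∈ ArgM g p r s, ∀ x' ∈ ArgM g p r s',
      x < x' := by
    intro s s' h1 h2 h3 x hx x' hx'
    have h4 := hx.2 x' hx'.1
    have h5 := hx'.2 x hx.1
    have h6 : 0 ≤ (s' - s) * (x' - x) := by nlinarith
    have h7 : x ≤ x' := by
      have := nonneg_of_mul_nonneg_right h6 (by linarith)
      linarith
    refine lt_of_le_of_ne h7 fun he => ?_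
    have h8 := hder s h1 (h2.trans h3) x hx
    have h9 := hder s' (h1.trans h2) h3 x' hx'
    rw [← he] at h9
    linarith
  by_cases hdense : ∀ t1 t2, s1 ≤ t1 → t1 < t2 → t2 ≤ s2 →
      ∃ s, t1 < s ∧ s < t2 ∧ ∃ x ∈ ArgM g p r s, ∃ y ∈ ArgM g p r s, x ≠ y
  · right
    refine ⟨{a : ℝ × ℝ × ℝ | s1 < a.2.1 ∧ a.2.1 < s2 ∧ a.2.2 = 0 ∧
      (∃ x ∈ ArgM g p r a.2.1, ∃ y ∈ ArgM g p r a.2.1, x ≠ y) ∧
      (IsLeast (ArgM g p r a.2.1) a.1 ∨ IsGreatest (ArgM g p r a.2.1) a.1)}, ?_, ?_⟩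
    · obtain ⟨s, h1, h2, h3⟩ := hdense s1 s2 le_rfl h le_rfl
      obtain ⟨x, hx⟩ := (argM_compact hgc hpr.le s).exists_isLeast (argM_nonempty hgc hpr.le s)
      exact ⟨(x, s, 0), h1, h2, rfl, h3, Or.inl hx⟩
    · have key : ∀ a : ℝ × ℝ × ℝ, a.2.2 = 0 → ∀ δ > 0, ∀ s', s1 < s' → s' < s2 →
          |s' - a.2.1| < δ → (∃ x ∈ ArgM g p r s', ∃ y ∈ ArgM g p r s', x ≠ y) →
          (∀ x ∈ ArgM g p r s', |x - a.1| < δ) →
          ∃ u ∈ {a : ℝ × ℝ × ℝ | s1 < a.2.1 ∧ a.2.1 < s2 ∧ a.2.2 = 0 ∧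
      (∃ x ∈ ArgM g p r a.2.1, ∃ y ∈ ArgM g p r a.2.1, x ≠ y) ∧
      (IsLeast (ArgM g p r a.2.1) a.1 ∨ IsGreatest (ArgM g p r a.2.1) a.1)},
      ∃ v ∈ {a : ℝ × ℝ × ℝ | s1 < a.2.1 ∧ a.2.1 < s2 ∧ a.2.2 = 0 ∧
      (∃ x ∈ ArgM g p r a.2.1, ∃ y ∈ ArgM g p r a.2.1, x ≠ y) ∧
      (IsLeast (ArgM g p r a.2.1) a.1 ∨ IsGreatest (ArgM g p r a.2.1) a.1)},
      u.1 ≠ v.1 ∧ |u.1 - a.1| < δ ∧ |v.1 - a.1| < δ ∧
      |u.2.1 - a.2.1| < δ ∧ |u.2.2 - a.2.2| < δ ∧ |v.2.2 - a.2.2| < δ ∧
      |g v.1 - g u.1 - u.2.1 * (v.1 - u.1) - u.2.2 * (v.1 - u.1) ^ 2 / 2| ≤ δ * (v.1 - u.1) ^ 2 ∧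
      |v.2.1 - u.2.1 - u.2.2 * (v.1 - u.1)| ≤ δ * |v.1 - u.1| := by
        intro a ha δ hδ s' h1 h2 h3 h4 h5
        obtain ⟨x, hx⟩ := (argM_compact hgc hpr.le s').exists_isLeast
          (argM_nonempty hgc hpr.le s')
        obtain ⟨y, hy⟩ := (argM_compact hgc hpr.le s').exists_isGreatest
          (argM_nonempty hgc hpr.le s')
        refine ⟨(x, s', 0), ⟨h1, h2, rfl, h4, Or.inl hx⟩, (y, s', 0),
          ⟨h1, h2, rfl, h4, Or.inr hy⟩, ?_, h5 x hx.1, h5 y hy.1, h3, ?_, ?_, ?_, ?_⟩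
        · intro he
          obtain ⟨z, hz, w, hw, hzw⟩ := h4
          apply hzw
          have he' : x = y := he
          have a1 := hx.2 hz
          have a2 := hx.2 hw
          have a3 := hy.2 hz
          have a4 := hy.2 hw
          linarith
        · show |(0 : ℝ) - a.2.2| < δ
          rw [ha]
          simpa using hδ
        · show |(0 : ℝ) - a.2.2| < δ
          rw [ha]
          simpa using hδ
        · show |g y - g x - s' * (y - x) - 0 * (y - x) ^ 2 / 2| ≤ δ * (y - x) ^ 2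
          have a1 := hx.1.2 y hy.1.1
          have a2 := hy.1.2 x hx.1.1
          have a3 : g y - g x - s' * (y - x) - 0 * (y - x) ^ 2 / 2 = 0 := by linarith
          rw [a3, abs_zero]
          positivity
        · show |s' - s' - 0 * (y - x)| ≤ δ * |y - x|
          rw [sub_self, zero_mul, sub_zero, abs_zero]
          positivity
      rintro a ⟨h1, h2, h3, h4, h5 | h5⟩ δ hδ
      · obtain ⟨η, hη, hη'⟩ := argM_semi hgc hpr a.2.1 (C := Set.Iic (a.1 - δ)) isClosed_Iic
          (by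
            intro x hx hxC
            have := h5.2 hx
            have h6 : x ≤ a.1 - δ := hxC
            linarith)
        obtain ⟨s', b1, b2, b3⟩ := hdense (max s1 (a.2.1 - min δ η)) a.2.1 (le_max_left _ _)
          (max_lt h1 (by linarith [lt_min hδ hη])) h2.le
        have b4 : s1 < s' := (le_max_left _ _).trans_lt b1
        have b5 : a.2.1 - min δ η < s' := (le_max_right _ _).trans_lt b1
        have b6 : |s' - a.2.1| < min δ η := by
          rw [abs_lt]
          constructor <;> linarith [lt_min hδ hη]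
        refine key a h3 δ hδ s' b4 (b2.trans h2) (b6.trans_le (min_le_left _ _)) b3 ?_
        intro x hx
        have b7 := hη' s' (b6.trans_le (min_le_right _ _)) x hx
        have b8 : a.1 - δ < x := by
          by_contra hc
          exact b7 (not_lt.mp hc)
        have b9 := hlt s' a.2.1 b4 b2 h2 x hx a.1 h5.1
        rw [abs_lt]
        constructor <;> linarith
      · obtain ⟨η, hη, hη'⟩ := argM_semi hgc hpr a.2.1 (C := Set.Ici (a.1 + δ)) isClosed_Ici
          (by
            intro x hx hxC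
            have := h5.2 hx
            have h6 : a.1 + δ ≤ x := hxC
            linarith)
        obtain ⟨s', b1, b2, b3⟩ := hdense a.2.1 (min s2 (a.2.1 + min δ η)) h1.le
          (lt_min h2 (by linarith [lt_min hδ hη])) (min_le_left _ _)
        have b4 : s' < s2 := b2.trans_le (min_le_left _ _)
        have b5 : s' < a.2.1 + min δ η := b2.trans_le (min_le_right _ _)
        have b6 : |s' - a.2.1| < min δ η := by
          rw [abs_lt]
          constructor <;> linarith [lt_min hδ hη]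
        refine key a h3 δ hδ s' (h1.trans b1) b4 (b6.trans_le (min_le_left _ _)) b3 ?_
        intro x hx
        have b7 := hη' s' (b6.trans_le (min_le_right _ _)) x hx
        have b8 : x < a.1 + δ := by
          by_contra hc
          exact b7 (not_lt.mp hc)
        have b9 := hlt a.2.1 s' h1 b1 b4 a.1 h5.1 x hx
        rw [abs_lt]
        constructor <;> linarith
  · left
    push Not at hdense
    obtain ⟨t1, t2, ht1, ht12, ht2, huniq⟩ := hdense
    obtain ⟨a', ha1, ha2⟩ := exists_between ht12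
    obtain ⟨b', hb1, hb2⟩ := exists_between ha2
    obtain ⟨xa, hxa⟩ := argM_nonempty hgc hpr.le a'
    obtain ⟨xb, hxb⟩ := argM_nonempty hgc hpr.le b'
    have hs1a : s1 < a' := ht1.trans_lt ha1
    have hb2s : b' < s2 := hb2.trans_le ht2
    have hxab : xa < xb := hlt a' b' hs1a hb1 hb2s xa hxa xb hxb
    have hval : ∀ y, xa < y → y < xb → ∃ s, a' ≤ s ∧ s ≤ b' ∧ y ∈ ArgM g p r s := by
      intro y hy1 hy2
      set S : Set ℝ := {s | a' ≤ s ∧ s ≤ b' ∧ ∃ x ∈ ArgM g p r s, x ≤ y} with hS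
      have hSne : S.Nonempty := ⟨a', le_rfl, hb1.le, xa, hxa, hy1.le⟩
      have hSbdd : BddAbove S := ⟨b', fun s hs => hs.2.1⟩
      set t := sSup S with ht
      have hta : a' ≤ t := le_csSup hSbdd ⟨le_rfl, hb1.le, xa, hxa, hy1.le⟩
      have htb : t ≤ b' := csSup_le hSne fun s hs => hs.2.1
      obtain ⟨x, hx⟩ := argM_nonempty hgc hpr.le t
      have hun : ∀ z ∈ ArgM g p r t, z = x := fun z hz =>
        huniq t (ha1.trans_le hta) (htb.trans_lt hb2) z hz x hx
      refine ⟨t, hta, htb, ?_⟩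
      rcases lt_trichotomy x y with hxy | hxy | hxy
      · exfalso
        obtain ⟨η, hη, hη'⟩ := argM_semi hgc hpr t (C := Set.Ici y) isClosed_Ici
          (by
            intro z hz hzC
            rw [hun z hz] at hzC
            exact absurd hzC (not_le.mpr hxy))
        have htb' : t < b' := by
          refine lt_of_le_of_ne htb fun he => ?_
          have : xb = x := hun xb (by rw [he]; exact hxb)
          linarith
        obtain ⟨s', c1, c2⟩ := exists_between (lt_min (show t < t + η by linarith) htb')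
        have c3 : s' < t + η := c2.trans_le (min_le_left _ _)
        have c4 : s' < b' := c2.trans_le (min_le_right _ _)
        obtain ⟨z, hz⟩ := argM_nonempty hgc hpr.le s'
        have c5 := hη' s' (by rw [abs_lt]; constructor <;> linarith) z hz
        have c6 : z < y := by
          by_contra hc
          exact c5 (not_lt.mp hc)
        have c7 : s' ∈ S := ⟨hta.trans c1.le, c4.le, z, hz, c6.le⟩
        exact absurd (le_csSup hSbdd c7) (not_le.mpr c1)
      · rw [← hxy]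
        exact hx
      · exfalso
        obtain ⟨η, hη, hη'⟩ := argM_semi hgc hpr t (C := Set.Iic y) isClosed_Iic
          (by
            intro z hz hzC
            rw [hun z hz] at hzC
            exact absurd hzC (not_le.mpr hxy))
        obtain ⟨s', hs', c1⟩ := exists_lt_of_lt_csSup hSne (show t - η < sSup S by
          rw [← ht]; linarith)
        obtain ⟨d1, d2, z, hz, hzy⟩ := hs'
        have c2 : s' ≤ t := le_csSup hSbdd ⟨d1, d2, z, hz, hzy⟩
        exact hη' s' (by rw [abs_lt]; constructor <;> linarith) z hz hzy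
    refine ⟨xa, xb, hxab, ?_⟩
    intro y1 hy1 y2 hy2 h12
    obtain ⟨σ1, c1, c2, c3⟩ := hval y1 hy1.1 hy1.2
    obtain ⟨σ2, d1, d2, d3⟩ := hval y2 hy2.1 hy2.2
    rw [hder σ1 (hs1a.trans_le c1) (c2.trans_lt hb2s) y1 c3,
      hder σ2 (hs1a.trans_le d1) (d2.trans_lt hb2s) y2 d3]
    by_contra hc
    rw [not_le] at hc
    have := hlt σ2 σ1 (hs1a.trans_le d1) hc (c2.trans_lt hb2s) y2 d3 y1 c3
    linarith

end Pool.Agent.UZ
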