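import Mathlib

/-!
# UZ/Twice: uncountably many points of second differentiability (MP_8d66ab_an, helper35)

* `jets_of_uncountable`: `E = {x : DifferentiableAt ℝ (deriv g) x}`, `c x = deriv (deriv g) x`. Let
  `E₀ = {x ∈ E : for all δ > 0, {y ∈ E : |y - x| < δ, |c y - c x| < δ} is uncountable}`. `E \ E₀` is countable (each of its points lies in a
  rational box `(s₁,s₂) × (t₁,t₂)` containing only countably many points of the graph of `c` over `E`; there are countably many boxes). So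
  `E₀` is nonempty and for `x ∈ E₀`, `δ > 0` there is `y ∈ E₀`, `y ≠ x`, with `|y - x| < δ`, `|c y - c x| < δ`. `A` = the set of
  `(x, deriv g x, c x)`, `x ∈ E₀`. Given `a = (x, ..)` and `δ`: `u = a`, `v = (y, ..)`, `y` very near `x`: by differentiability of `deriv g` at
  `x`, `|deriv g y - deriv g x - c (y - x)| ≤ δ |y - x|` for `|y - x| < η`, and by the mean value inequality for
  `g w - deriv g x (w - x) - c (w-x)²/2` on the segment, `|g y - g x - deriv g x (y-x) - c (y-x)²/2| ≤ δ (y-x)²`.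
* `uncountable_of_mono`: a monotone (antitone) function on an interval is differentiable almost everywhere
  (`MonotoneOn.ae_differentiableWithinAt`), and the interval has positive measure, so the set is not countable.
-/

namespace Pool.Agent.UZ

theorem jets_of_uncountable (g : ℝ → ℝ) (hg : Differentiable ℝ g)
    (hE : ¬ Set.Countable {x : ℝ | DifferentiableAt ℝ (deriv g) x}) :
    ∃ A : Set (ℝ × ℝ × ℝ), A.Nonempty ∧
      ∀ a ∈ A, ∀ δ > 0, ∃ u ∈ A, ∃ v ∈ A, u.1 ≠ v.1 ∧ |u.1 - a.1| < δ ∧ |v.1 - a.1| < δ ∧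
      |u.2.1 - a.2.1| < δ ∧ |u.2.2 - a.2.2| < δ ∧ |v.2.2 - a.2.2| < δ ∧
      |g v.1 - g u.1 - u.2.1 * (v.1 - u.1) - u.2.2 * (v.1 - u.1) ^ 2 / 2| ≤ δ * (v.1 - u.1) ^ 2 ∧
      |v.2.1 - u.2.1 - u.2.2 * (v.1 - u.1)| ≤ δ * |v.1 - u.1| := by
  sorry

theorem uncountable_of_mono (φ : ℝ → ℝ) {a b : ℝ} (hab : a < b)
    (h : MonotoneOn φ (Set.Ioo a b) ∨ AntitoneOn φ (Set.Ioo a b)) :
    ¬ Set.Countable {x : ℝ | DifferentiableAt ℝ φ x} := by
  sorry

end Pool.Agent.UZ
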