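import Pool.Agent.UZ.Key
import Pool.Agent.UZ.Legendre
import Pool.Agent.UZ.Twice

/-!
# UZ/Main: every differentiable function agrees with a twice differentiable one on an uncountable set (MP_8d66ab_an, helper35)
-/

namespace Pool.Agent.UZ

/-- if no chord lies above the graph, the derivative is antitone -/
theorem antitone_of_concave (g : ℝ → ℝ) (hg : Differentiable ℝ g)
    (h : ∀ p q r : ℝ, p < q → q < r → (g r - g q) / (r - q) ≤ (g q - g p) / (q - p)) :
    Antitone (deriv g) := by
  have hc : ConcaveOn ℝ Set.univ g := by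
    apply concaveOn_of_slope_anti_adjacent convex_univ
    intro x y z _ _ hxy hyz
    exact h x y z hxy hyz
  intro x y hxy
  rcases hxy.eq_or_lt with rfl | hxy
  · exact le_rfl
  · have h1 := hc.le_slope_of_hasDerivAt (Set.mem_univ x) (Set.mem_univ y) hxy
      (hg y).hasDerivAt
    have h2 := hc.slope_le_of_hasDerivAt (Set.mem_univ x) (Set.mem_univ y) hxy
      (hg x).hasDerivAt
    exact h1.trans h2

theorem main (g : ℝ → ℝ) (hg : Differentiable ℝ g) :
    ∃ f : ℝ → ℝ, Differentiable ℝ f ∧ Differentiable ℝ (deriv f) ∧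
      ¬ Set.Countable {x : ℝ | f x = g x} := by
  have key' := key g hg.continuous
  by_cases h : ∀ p q r : ℝ, p < q → q < r → (g r - g q) / (r - q) ≤ (g q - g p) / (q - p)
  · have h1 := antitone_of_concave g hg h
    have h2 := uncountable_of_mono (deriv g) (zero_lt_one) (Or.inr (h1.antitoneOn _))
    obtain ⟨A, hA1, hA2⟩ := jets_of_uncountable g hg h2
    exact key' A hA1 hA2
  · push Not at h
    obtain ⟨p, q, r, hpq, hqr, h⟩ := h
    rcases legendre g hg hpq hqr h with ⟨a, b, hab, hm⟩ | ⟨A, hA1, hA2⟩
    · have h2 := uncountable_of_mono (deriv g) hab (Or.inl hm)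
      obtain ⟨A, hA1, hA2⟩ := jets_of_uncountable g hg h2
      exact key' A hA1 hA2
    · exact key' A hA1 hA2

end Pool.Agent.UZ
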